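import Pool.Agent.Zk41.LS.F
import Pool.Agent.K3h89.SZ.LOWP

/-!
Prime points and almost prime points of systems of linear forms.
-/

set_option autoImplicit false

open Finset Filter Topology

namespace Pool.Agent.Zk41.LS

open Pool.Agent.TH423.SH (PS)
open Pool.Agent.Y677.RSZ (rt V rt_le V_split ev_log)
open Pool.Agent.K3h89.SZ (SysP CF V_lowerP V_posP)

/-- a lower bound for the sieve product -/
theorem V_low1 (g : ℕ) : ∃ c : ℝ, 0 < c ∧ ∃ H₀ : ℕ, ∀ (F : ℤ → ℤ) (H : ℕ), SysP g F → H₀ ≤ H →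
    c / Real.log H ^ (2 * g) ≤ V F 1 H := by
  obtain ⟨KV, hKV1, hKV⟩ := V_lowerP
  obtain ⟨W, hW⟩ : ∃ W : ℕ, W = primorial (2 * g + 2) := ⟨_, rfl⟩
  have hWpos : 0 < W := by rw [hW]; exact primorial_pos _
  have hWp : ∀ p : ℕ, p.Prime → p ≤ 2 * g + 2 → p ∣ W := fun p hp hpS => by
    rw [hW]; exact hp.dvd_primorial_iff.2 hpS
  refine ⟨(∏ p ∈ W.primeFactors, (1 : ℝ) / p) * (1 / KV ^ (2 * g)), ?_, W + 2, fun F H hF hH => ?_⟩
  · apply mul_pos _ (by positivity)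
    apply prod_pos
    intro p hp
    have := (Nat.prime_of_mem_primeFactors hp).pos
    positivity
  · have hlog : 0 < Real.log H := Real.log_pos (by exact_mod_cast (show 1 < H by omega))
    rw [V_split W H hWpos.ne' (fun p hp hpW => (Nat.le_of_dvd hWpos hpW).trans (by omega))]
    have h1 := hKV g F W H hF (by omega) hWp
    have h2 : ∏ p ∈ W.primeFactors, (1 : ℝ) / p ≤ ∏ p ∈ W.primeFactors, (1 - (rt F p : ℝ) / p) := by
      apply Finset.prod_le_prod
      · intro p hp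
        positivity
      · intro p hp
        have hpp := Nat.prime_of_mem_primeFactors hp
        have hp0 : (0 : ℝ) < p := by exact_mod_cast hpp.pos
        have h3 : ((rt F p : ℕ) : ℝ) + 1 ≤ p := by exact_mod_cast (hF.root p hpp).2
        rw [div_le_iff₀ hp0, sub_mul, div_mul_cancel₀ _ hp0.ne', one_mul]
        linarith
    have h3 : 0 ≤ ∏ p ∈ W.primeFactors, (1 : ℝ) / p := prod_nonneg fun p _ => by positivity
    calc (∏ p ∈ W.primeFactors, (1 : ℝ) / p) * (1 / KV ^ (2 * g)) / Real.log H ^ (2 * g) =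
          (∏ p ∈ W.primeFactors, (1 : ℝ) / p) * (1 / (KV * Real.log H) ^ (2 * g)) := by
          rw [mul_pow]
          field_simp
      _ ≤ _ := mul_le_mul h2 h1 (by positivity) (h3.trans h2)

variable {K : ℕ} {a b : Fin K → ℤ}

/-- the integers at which a form is small -/
theorem small_card (T : ℕ) (s : Finset ℕ) (i : Fin K) (ha : a i ≠ 0) :
    (s.filter (fun n : ℕ => (a i * (n : ℤ) + b i).natAbs ≤ T)).card ≤ 2 * T + 1 := by
  have h1 : (s.filter (fun n : ℕ => (a i * (n : ℤ) + b i).natAbs ≤ T)).card ≤ (Finset.Icc (-(T : ℤ)) T).card := by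
    apply card_le_card_of_injOn (fun n : ℕ => a i * (n : ℤ) + b i)
    · intro n hn
      rw [mem_coe, mem_filter] at hn
      rw [mem_coe, Finset.mem_Icc]
      have h2 := hn.2
      simp only
      generalize a i * (n : ℤ) + b i = e at h2 ⊢
      omega
    · intro n _ m _ h
      simp only at h
      have h2 : a i * (n : ℤ) = a i * (m : ℤ) := by linarith
      have h3 := mul_left_cancel₀ ha h2
      exact_mod_cast h3
  refine h1.trans ?_
  rw [Int.card_Icc]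
  omega

open Classical in
/-- **The theorem for the prime points.** -/
theorem lin_primes (K k C : ℕ) (κ : ℝ) (hκ : 0 < κ) : ∃ B H₀ : ℕ, ∀ H : ℕ, H₀ ≤ H →
    ∀ (a b : Fin K → ℤ) (Y : ℕ), Adm a b → (∀ i, a i ≠ 0) → (∀ i, |a i| ≤ (H : ℤ) ^ C ∧ |b i| ≤ (H : ℤ) ^ C) →
    Y ≤ H ^ C → (∀ n ∈ Ioc Y (Y + H), Fab a b (n : ℤ) ≠ 0) → ∀ A : Finset ℕ, A ⊆ Ioc Y (Y + H) →
    (∀ n ∈ A, ∀ i, (a i * (n : ℤ) + b i).natAbs.Prime) → κ * (H * V (Fab a b) 1 H) ≤ A.card →
    ∃ x d : ℕ, 1 ≤ d ∧ (d : ℝ) ≤ Real.log H ^ B ∧ ∀ i < k, x + i * d ∈ A := by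
  obtain ⟨B, H₁, h1⟩ := lin K k C (1 / 4) (κ / 2) (by norm_num) (by positivity)
  obtain ⟨c, hc, H₂, h2⟩ := V_low1 K
  have hev := ev_log (2 * K) (8 * (K + 1) / (κ * c)) (1 / 4) (by norm_num)
  obtain ⟨H₃, h3⟩ := eventually_atTop.1 hev
  refine ⟨B, H₁ + H₂ + H₃ + 3, fun H hH a b Y hA ha hab hY hne A hAs hAp hAc => ?_⟩
  have hH0 : (0 : ℝ) < H := by exact_mod_cast (show 0 < H by omega)
  have hH1 : (1 : ℝ) ≤ H := by exact_mod_cast (show 1 ≤ H by omega)
  have hlog : 0 < Real.log H := Real.log_pos (by exact_mod_cast (show 1 < H by omega))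
  obtain ⟨T, hT⟩ : ∃ T : ℕ, T = ⌊(H : ℝ) ^ (1 / 4 : ℝ)⌋₊ := ⟨_, rfl⟩
  have hTle : (T : ℝ) ≤ (H : ℝ) ^ (1 / 4 : ℝ) := by rw [hT]; exact Nat.floor_le (by positivity)
  have hq1 : (1 : ℝ) ≤ (H : ℝ) ^ (1 / 4 : ℝ) := Real.one_le_rpow hH1 (by norm_num)
  obtain ⟨A', hA'⟩ : ∃ A' : Finset ℕ, A' = A.filter (fun n : ℕ => ∀ i, T < (a i * (n : ℤ) + b i).natAbs) := ⟨_, rfl⟩
  have hsubA : A' ⊆ A := by rw [hA']; exact filter_subset _ _
  -- few are lost
  have hlost : (A.card : ℝ) ≤ A'.card + K * (2 * T + 1) := by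
    have e1 : A ⊆ A' ∪ (univ : Finset (Fin K)).biUnion
        (fun i => A.filter (fun n : ℕ => (a i * (n : ℤ) + b i).natAbs ≤ T)) := by
      intro n hn
      rw [mem_union]
      by_cases h : ∀ i, T < (a i * (n : ℤ) + b i).natAbs
      · left
        rw [hA', mem_filter]
        exact ⟨hn, h⟩
      · right
        push Not at h
        obtain ⟨i, hi⟩ := h
        rw [mem_biUnion]
        exact ⟨i, mem_univ _, mem_filter.2 ⟨hn, hi⟩⟩
    have e2 := (card_le_card e1).trans (card_union_le _ _)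
    have e3 : ((univ : Finset (Fin K)).biUnion
        (fun i => A.filter (fun n : ℕ => (a i * (n : ℤ) + b i).natAbs ≤ T))).card ≤ K * (2 * T + 1) := by
      refine card_biUnion_le.trans ?_
      calc ∑ i : Fin K, (A.filter (fun n : ℕ => (a i * (n : ℤ) + b i).natAbs ≤ T)).card ≤
            ∑ _i : Fin K, (2 * T + 1) := sum_le_sum fun i _ => small_card T A i (ha i)
        _ = _ := by simp
    exact_mod_cast e2.trans (Nat.add_le_add_left e3 _)
  have hV := h2 (Fab a b) H (sys_Fab hA K le_rfl) (by omega)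
  have hnum : (K : ℝ) * (2 * T + 1) ≤ κ / 2 * (H * V (Fab a b) 1 H) := by
    have e1 := h3 H (by omega)
    have e2 : (K : ℝ) * (2 * T + 1) ≤ (K + 1) * (4 * (H : ℝ) ^ (1 / 4 : ℝ)) := by
      have hK0 : (0 : ℝ) ≤ K := Nat.cast_nonneg _
      have : (0 : ℝ) ≤ T := Nat.cast_nonneg _
      nlinarith
    have e3 : 8 * ((K : ℝ) + 1) * Real.log H ^ (2 * K) * (H : ℝ) ^ (1 / 4 : ℝ) ≤ κ * c * H := by
      have e4 : 8 * ((K : ℝ) + 1) * Real.log H ^ (2 * K) ≤ κ * c * (H : ℝ) ^ (1 / 4 : ℝ) := by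
        rw [div_mul_eq_mul_div, div_le_iff₀ (by positivity)] at e1
        linarith
      calc 8 * ((K : ℝ) + 1) * Real.log H ^ (2 * K) * (H : ℝ) ^ (1 / 4 : ℝ) ≤
            κ * c * (H : ℝ) ^ (1 / 4 : ℝ) * (H : ℝ) ^ (1 / 4 : ℝ) := by gcongr
        _ = κ * c * (H : ℝ) ^ (1 / 2 : ℝ) := by
            rw [mul_assoc, ← Real.rpow_add hH0]
            norm_num
        _ ≤ κ * c * H := by
            gcongr
            calc (H : ℝ) ^ (1 / 2 : ℝ) ≤ (H : ℝ) ^ (1 : ℝ) := Real.rpow_le_rpow_of_exponent_le hH1 (by norm_num)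
              _ = H := Real.rpow_one _
    calc (K : ℝ) * (2 * T + 1) ≤ (K + 1) * (4 * (H : ℝ) ^ (1 / 4 : ℝ)) := e2
      _ ≤ κ / 2 * (H * (c / Real.log H ^ (2 * K))) := by
          rw [mul_div_assoc', mul_div_assoc', le_div_iff₀ (by positivity)]
          linarith
      _ ≤ _ := by gcongr
  obtain ⟨x, d, g1, g2, g3⟩ := h1 H (by omega) a b Y hA ha hab hY hne A' (hsubA.trans hAs) (by
      intro n hn p hp hpH hpd
      rw [hA', mem_filter] at hn
      obtain ⟨i, hi⟩ := (dvd_Fab hp _).1 hpd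
      have e1 := hAp n hn.1 i
      have e2 : p ∣ (a i * (n : ℤ) + b i).natAbs := Int.natCast_dvd.1 hi
      have e3 := (Nat.prime_dvd_prime_iff_eq hp e1).1 e2
      have e4 := hn.2 i
      rw [← e3] at e4
      have e5 : p ≤ T := by
        rw [hT]
        exact Nat.le_floor hpH
      omega) (by linarith)
  exact ⟨x, d, g1, g2, fun i hi => hsubA (g3 i hi)⟩

/-- numbers without small prime factors have few prime factors -/
theorem omega_le {m : ℕ} (hm : m ≠ 0) {H : ℕ} (hH : 2 ≤ H) {δ : ℝ} (hδ : 0 < δ) (g : ℕ) (hmH : m ≤ H ^ g)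
    (hr : ∀ p : ℕ, p.Prime → p ∣ m → (H : ℝ) ^ δ < p) : (m.primeFactorsList.length : ℝ) ≤ g / δ := by
  have hH0 : (0 : ℝ) < H := by exact_mod_cast (show 0 < H by omega)
  have hlog : 0 < Real.log H := Real.log_pos (by exact_mod_cast (show 1 < H by omega))
  obtain ⟨q, hq⟩ : ∃ q : ℕ, q = ⌊(H : ℝ) ^ δ⌋₊ + 1 := ⟨_, rfl⟩
  have hq1 : (H : ℝ) ^ δ < q := by
    rw [hq]
    push_cast
    exact Nat.lt_floor_add_one _
  have h1 : q ^ m.primeFactorsList.length ≤ m.primeFactorsList.prod := by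
    apply List.pow_card_le_prod
    intro p hp
    have hpp := Nat.prime_of_mem_primeFactorsList hp
    have := hr p hpp (Nat.dvd_of_mem_primeFactorsList hp)
    rw [hq, Nat.succ_le_iff, Nat.floor_lt (by positivity)]
    exact this
  rw [Nat.prod_primeFactorsList hm] at h1
  have h2 : (q : ℝ) ^ m.primeFactorsList.length ≤ (H : ℝ) ^ g := by exact_mod_cast h1.trans hmH
  have hq0 : (0 : ℝ) < q := lt_of_lt_of_le (by positivity) hq1.le
  have h3 := Real.log_le_log (by positivity) h2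
  rw [Real.log_pow, Real.log_pow] at h3
  have h4 : δ * Real.log H ≤ Real.log q := by
    rw [← Real.log_rpow hH0]
    exact Real.log_le_log (by positivity) hq1.le
  rw [le_div_iff₀ hδ]
  have h5 : (m.primeFactorsList.length : ℝ) * (δ * Real.log H) ≤ m.primeFactorsList.length * Real.log q := by
    gcongr
  have h6 : ((m.primeFactorsList.length : ℝ) * δ) * Real.log H ≤ g * Real.log H := by
    calc ((m.primeFactorsList.length : ℝ) * δ) * Real.log H = (m.primeFactorsList.length : ℝ) * (δ * Real.log H) := by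
          ring
      _ ≤ _ := h5.trans h3
  exact le_of_mul_le_mul_right h6 hlog

open Classical in
/-- **The theorem for the almost prime points.** -/
theorem lin_col (K k C r : ℕ) : ∃ s B H₀ : ℕ, ∀ H : ℕ, H₀ ≤ H →
    ∀ (a b : Fin K → ℤ) (Y : ℕ), Adm a b → (∀ i, a i ≠ 0) → (∀ i, |a i| ≤ (H : ℤ) ^ C ∧ |b i| ≤ (H : ℤ) ^ C) →
    Y ≤ H ^ C → (∀ n ∈ Ioc Y (Y + H), Fab a b (n : ℤ) ≠ 0) → ∀ χ : ℕ → Fin (r + 1),
    ∃ x d : ℕ, ∃ t : Fin (r + 1), 1 ≤ d ∧ (d : ℝ) ≤ Real.log H ^ B ∧ ∀ j < k, x + j * d ∈ Ioc Y (Y + H) ∧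
      χ (x + j * d) = t ∧ ∀ i, (a i * ((x + j * d : ℕ) : ℤ) + b i).natAbs.primeFactorsList.length ≤ s := by
  obtain ⟨δ, κ, hδ, hκ, H₂, h2⟩ := Pool.Agent.K3h89.SZ.lowP Pool.Agent.K3h89.SZ.c1P K
  obtain ⟨B, H₁, h1⟩ := lin K k C δ (κ / (r + 1)) hδ (by positivity)
  refine ⟨⌊((2 * C + 2 : ℕ) : ℝ) / δ⌋₊, B, H₁ + H₂ + 3, fun H hH a b Y hA ha hab hY hne χ => ?_⟩
  obtain ⟨A, hAs, hAr, hAc⟩ := h2 (Fab a b) Y H (sys_Fab hA K le_rfl) (by omega)
  -- a colour
  have hcol : ∃ t : Fin (r + 1), κ / (r + 1) * (H * V (Fab a b) 1 H) ≤ ((A.filter (fun n => χ n = t)).card : ℝ) := by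
    by_contra hcon
    push Not at hcon
    have e1 : A.card = ∑ t : Fin (r + 1), (A.filter (fun n => χ n = t)).card :=
      card_eq_sum_card_fiberwise (fun _ _ => mem_univ _)
    have e2 : (A.card : ℝ) < ∑ _t : Fin (r + 1), κ / (r + 1) * (H * V (Fab a b) 1 H) := by
      rw [e1]
      push_cast
      exact sum_lt_sum_of_nonempty ⟨0, mem_univ _⟩ fun t _ => hcon t
    rw [sum_const, card_univ, Fintype.card_fin, nsmul_eq_mul] at e2
    have e3 : ((r + 1 : ℕ) : ℝ) * (κ / (r + 1) * (H * V (Fab a b) 1 H)) = κ * (H * V (Fab a b) 1 H) := by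
      push_cast
      field_simp
    rw [e3] at e2
    linarith
  obtain ⟨t, ht⟩ := hcol
  obtain ⟨x, d, g1, g2, g3⟩ := h1 H (by omega) a b Y hA ha hab hY hne (A.filter (fun n => χ n = t))
    ((filter_subset _ _).trans hAs) (fun n hn p hp hpH => hAr n (mem_filter.1 hn).1 p hp hpH) ht
  refine ⟨x, d, t, g1, g2, fun j hj => ?_⟩
  obtain ⟨hm1, hm2⟩ := mem_filter.1 (g3 j hj)
  refine ⟨hAs hm1, hm2, fun i => ?_⟩
  have hmI := hAs hm1
  have hne0 : a i * ((x + j * d : ℕ) : ℤ) + b i ≠ 0 := by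
    intro h0
    apply hne _ hmI
    unfold Fab
    exact prod_eq_zero (mem_univ i) h0
  have hbd : (a i * ((x + j * d : ℕ) : ℤ) + b i).natAbs ≤ H ^ (2 * C + 2) := by
    have e1 := Fab_le (K := 1) (a := fun _ => a i) (b := fun _ => b i) C H Y (by omega) (fun _ => hab i) hY
      (x + j * d) (mem_Ioc.1 hmI).2
    unfold Fab at e1
    simp only [prod_const, card_univ, Fintype.card_fin, pow_one, one_mul] at e1
    have e2 : ((a i * ((x + j * d : ℕ) : ℤ) + b i).natAbs : ℤ) ≤ ((H ^ (2 * C + 2) : ℕ) : ℤ) := by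
      rw [Int.natCast_natAbs]
      push_cast at e1 ⊢
      exact e1
    exact_mod_cast e2
  apply Nat.le_floor
  refine omega_le (Int.natAbs_ne_zero.2 hne0) (by omega) hδ (2 * C + 2) hbd ?_
  intro p hp hpd
  by_contra hcon
  push Not at hcon
  exact hAr _ hm1 p hp hcon ((dvd_Fab hp _).2 ⟨i, Int.natCast_dvd.2 hpd⟩)

end Pool.Agent.Zk41.LS
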