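import Pool.Agent.Zk41.LS.E

/-!
Szemerédi's theorem relative to the sets of the integers at which the forms of a system have no small prime factors,
for progressions with a small difference, uniformly in all coefficients.
-/

set_option autoImplicit false

open Finset Filter Topology

namespace Pool.Agent.Zk41.LS

open Pool.Agent.TH423.SH (PS)
open Pool.Agent.Y677.RSZ (rt V)
open Pool.Agent.K3h89.SZ (SysP CF strip stripP)

variable {K : ℕ} {a b : Fin K → ℤ}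

theorem Fab_le (C H Y : ℕ) (hH : 3 ≤ H) (hab : ∀ i, |a i| ≤ (H : ℤ) ^ C ∧ |b i| ≤ (H : ℤ) ^ C) (hY : Y ≤ H ^ C)
    (n : ℕ) (hn : n ≤ Y + H) : |Fab a b n| ≤ (H : ℤ) ^ (K * (2 * C + 2)) := by
  unfold Fab
  rw [abs_prod]
  have hH' : (3 : ℤ) ≤ H := by exact_mod_cast hH
  have hn' : (n : ℤ) ≤ (H : ℤ) ^ C + H := by
    have h1 : (n : ℤ) ≤ Y + H := by exact_mod_cast hn
    have h2 : (Y : ℤ) ≤ (H : ℤ) ^ C := by exact_mod_cast hY
    linarith
  calc ∏ i : Fin K, |a i * (n : ℤ) + b i| ≤ ∏ _i : Fin K, (H : ℤ) ^ (2 * C + 2) := by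
        apply prod_le_prod (fun _ _ => abs_nonneg _)
        intro i _
        have h1 : |a i * (n : ℤ) + b i| ≤ |a i| * n + |b i| := by
          refine (abs_add_le _ _).trans ?_
          rw [abs_mul, Nat.abs_cast]
        have h2 : |a i| * (n : ℤ) ≤ (H : ℤ) ^ C * ((H : ℤ) ^ C + H) :=
          mul_le_mul (hab i).1 hn' (by positivity) (by positivity)
        have h3 := (hab i).2
        have h4 : (1 : ℤ) ≤ (H : ℤ) ^ C := one_le_pow₀ (by linarith)
        have e : (H : ℤ) ^ (2 * C + 2) = (H : ℤ) ^ C * (H : ℤ) ^ C * (H * H) := by ring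
        rw [e]
        have h5 : (3 : ℤ) * H ≤ H * H := by nlinarith
        have h6 : (H : ℤ) ^ C * H ≤ (H : ℤ) ^ C * (H : ℤ) ^ C * H := by
          have h7 : (H : ℤ) ^ C * 1 ≤ (H : ℤ) ^ C * (H : ℤ) ^ C := mul_le_mul_of_nonneg_left h4 (by positivity)
          nlinarith
        have h8 : (H : ℤ) ^ C * (H : ℤ) ^ C ≤ (H : ℤ) ^ C * (H : ℤ) ^ C * H := by
          have : (0 : ℤ) ≤ (H : ℤ) ^ C * (H : ℤ) ^ C := by positivity
          nlinarith
        have h9 : (H : ℤ) ^ C ≤ (H : ℤ) ^ C * H := by nlinarith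
        have h10 : (H : ℤ) ^ C * (H : ℤ) ^ C * (3 * H) ≤ (H : ℤ) ^ C * (H : ℤ) ^ C * (H * H) :=
          mul_le_mul_of_nonneg_left h5 (by positivity)
        calc |a i * (n : ℤ) + b i| ≤ (H : ℤ) ^ C * ((H : ℤ) ^ C + H) + (H : ℤ) ^ C := by linarith
          _ = (H : ℤ) ^ C * (H : ℤ) ^ C + (H : ℤ) ^ C * H + (H : ℤ) ^ C := by ring
          _ ≤ _ := by linarith
    _ = _ := by
        rw [prod_const, card_univ, Fintype.card_fin, ← pow_mul]
        congr 1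
        ring

set_option maxHeartbeats 1600000 in
/-- the theorem for forms without small prime factors -/
theorem lin (K k C : ℕ) (δ κ : ℝ) (hδ : 0 < δ) (hκ : 0 < κ) : ∃ B H₀ : ℕ, ∀ H : ℕ, H₀ ≤ H →
    ∀ (a b : Fin K → ℤ) (Y : ℕ), Adm a b → (∀ i, a i ≠ 0) → (∀ i, |a i| ≤ (H : ℤ) ^ C ∧ |b i| ≤ (H : ℤ) ^ C) →
    Y ≤ H ^ C → (∀ n ∈ Ioc Y (Y + H), Fab a b (n : ℤ) ≠ 0) → ∀ A : Finset ℕ, A ⊆ Ioc Y (Y + H) →
    (∀ n ∈ A, ∀ p : ℕ, p.Prime → (p : ℝ) ≤ (H : ℝ) ^ δ → ¬ (p : ℤ) ∣ Fab a b (n : ℤ)) →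
    κ * (H * V (Fab a b) 1 H) ≤ A.card →
    ∃ x d : ℕ, 1 ≤ d ∧ (d : ℝ) ≤ Real.log H ^ B ∧ ∀ i < k, x + i * d ∈ A := by
  classical
  obtain ⟨g, hg⟩ : ∃ g : ℕ, g = K * (2 * C + 2) + K := ⟨_, rfl⟩
  obtain ⟨εE, hεE, B, H₂, hE⟩ := eng2_all (max k 2) g δ (κ / 2) (le_max_right _ _) hδ (by positivity)
  obtain ⟨H₃, hX⟩ := badL K C B εE hεE
  obtain ⟨H₄, hL⟩ := larL K C (2 * B) (1 / (4 * ((g : ℝ) + 1))) (by positivity)
  have hcast : Tendsto (fun H : ℕ => (H : ℝ)) atTop atTop := tendsto_natCast_atTop_atTop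
  have hlog : Tendsto (fun H : ℕ => Real.log (H : ℝ)) atTop atTop :=
    Real.tendsto_log_atTop.comp hcast
  have hsq : Tendsto (fun H : ℕ => √(Real.log (H : ℝ))) atTop atTop :=
    Real.tendsto_sqrt_atTop.comp hlog
  have hex : Tendsto (fun H : ℕ => Real.exp (√(Real.log (H : ℝ)))) atTop atTop :=
    Real.tendsto_exp_atTop.comp hsq
  obtain ⟨H₅, hH₅⟩ := eventually_atTop.1 (hex.eventually_ge_atTop ((2 * (g + 1) : ℕ) : ℝ))
  refine ⟨B, H₂ + H₃ + H₄ + H₅ + 3, fun H hH a b Y hA ha hab hY hne A hAs hAr hAc => ?_⟩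
  have n9 := hH₅ H (by omega)
  have hH3 : 3 ≤ H := by omega
  have hlog0 : 0 ≤ Real.log H := Real.log_natCast_nonneg H
  obtain ⟨bad, hbd⟩ : ∃ bad : ℕ → Prop, bad = fun p : ℕ => Real.exp (√(Real.log H)) ≤ p ∧
    ∃ h : ℕ, 1 ≤ h ∧ (h : ℝ) ≤ Real.log H ^ (2 * B) ∧ ∃ i j, Res a b i j h ≠ 0 ∧ (p : ℤ) ∣ Res a b i j h :=
      ⟨_, rfl⟩
  obtain ⟨F, hF⟩ : ∃ F : ℤ → ℤ, F = strip (Fab a b) H bad := ⟨_, rfl⟩
  obtain ⟨s1, s2, s3, s4⟩ := stripP g (Fab a b) H bad (sys_Fab hA g (by rw [hg]; exact Nat.le_add_left _ _))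
  rw [← hF] at s1 s2 s3 s4
  have hCF : ∀ h p : ℕ, p.Prime → CF F h p → CF (Fab a b) h p ∧ ¬ bad p := by
    rintro h p hp ⟨x, hx, hx'⟩
    have g1 := (s2 x p hp).1 hx
    have g2 := (s2 (x + h) p hp).1 hx'
    exact ⟨⟨x, g1.2.2, g2.2.2⟩, g1.2.1⟩
  have hVb : V F 1 H ≤ 2 * V (Fab a b) 1 H := by
    apply s4
    · have h1 := hL H (by omega) a b hab
      refine le_trans (le_of_eq ?_) h1
      apply sum_congr _ (fun _ _ => rfl)
      ext p
      simp only [mem_filter, hbd]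
    · intro p hp hbp
      rw [hbd] at hbp
      have h1 := n9.trans hbp.1
      exact_mod_cast h1
  obtain ⟨x, d, hd1, hd2, hAP⟩ := hE F Y H A s1 (by omega)
    (by
      intro n hn
      obtain ⟨g1, g2⟩ := s3 n (hne n hn)
      refine ⟨g1, g2.trans ((Fab_le C H Y hH3 hab hY n (mem_Ioc.1 hn).2).trans ?_)⟩
      exact pow_le_pow_right₀ (by exact_mod_cast (show 1 ≤ H by omega)) (by rw [hg]; exact Nat.le_add_right _ _))
    (by
      intro W N hW1 hW2 hN1 hN2 hWp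
      refine le_trans ?_ (hX H (by omega) a b hA ha hab W N hW1 hW2 hN1 hN2 hWp)
      rw [Nat.cast_le]
      apply card_le_card
      intro j hj
      rw [mem_filter] at hj ⊢
      refine ⟨hj.1, ?_⟩
      rcases hj.2 with h1 | ⟨p, hp, hpe, hcf⟩
      · left
        refine lt_of_lt_of_le h1 ?_
        apply sum_le_sum_of_subset_of_nonneg
        · intro p hp
          rw [mem_filter] at hp ⊢
          have hp1 := hp.1
          unfold PS at hp1
          rw [mem_filter] at hp1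
          exact ⟨hp.1, (hCF _ p hp1.2.1 hp.2).1⟩
        · intro p _ _
          positivity
      · right
        obtain ⟨g1, g2⟩ := hCF _ p hp hcf
        obtain ⟨i, i', h3, -⟩ := cf_Fab hA hp g1
        refine ⟨i, i', ?_⟩
        by_contra h4
        apply g2
        rw [hbd]
        rw [mem_Icc] at hj
        refine ⟨hpe, W * j, Nat.mul_pos hW1 hj.1.1, ?_, i, i', h4, h3⟩
        have h5 : (j : ℝ) ≤ Real.log H ^ B := le_trans (by exact_mod_cast hj.1.2) hN2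
        push_cast
        calc (W : ℝ) * j ≤ Real.log H ^ B * Real.log H ^ B := by gcongr
          _ = Real.log H ^ (2 * B) := by rw [← pow_add, two_mul])
    hAs
    (by
      intro n hn p hp hpH hpd
      exact hAr n hn p hp hpH ((s2 n p hp).1 hpd).2.2)
    (by
      refine le_trans ?_ hAc
      have hH0 : (0 : ℝ) ≤ H := Nat.cast_nonneg _
      calc κ / 2 * (H * V F 1 H) ≤ κ / 2 * (H * (2 * V (Fab a b) 1 H)) := by gcongr
        _ = κ * (H * V (Fab a b) 1 H) := by ring)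
  exact ⟨x, d, hd1, hd2, fun i hi => hAP i (lt_of_lt_of_le hi (le_max_left _ _))⟩

end Pool.Agent.Zk41.LS
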