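import Pool.Agent.K3h69.SZ.MAJP
import Pool.Agent.K3h89.SX.Stm

/-!
The majorant of sifted sets (`Pool.Agent.K3h89.SX.majX`, of the starting files), with both hypotheses on the common
prime factors only for the differences of the shifts.
-/

set_option autoImplicit false

open Finset Filter

namespace Pool.Agent.Zk41.LS

open Pool.Agent.TH423.SH (PS PIj prc)
open Pool.Agent.Y917.PSP (TT Dl wt mem_TT Dl_pos div_bound final_real aux3 aux6 aux9 aux11 aux13 pow_eq_exp)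
open Pool.Agent.Y677.RSZ (rt rhoT V rs qfr PR S_SEL S_MER S_MK)
open Pool.Agent.Y814.RSZ
open Pool.Agent.K3h89.SZ (SysP CF S_C1P S_CLSP)
open Pool.Agent.K3h69.SZ
open Pool.Agent.K3h89.SX (S_LOCX)

open Classical in
/-- `S_MAJX` with both hypotheses on the common prime factors only for the differences of the shifts -/
def S_MAJ2 : Prop := ∀ (g M : ℕ) (δ : ℝ), 0 < δ → ∃ c : ℝ, 0 < c ∧ ∀ η : ℝ, 0 < η →
  ∃ ε : ℝ, 0 < ε ∧ ∃ (B : ℕ) (s₀ : ℝ), ∀ B' : ℕ, ∃ H₀ : ℕ,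
  ∀ (F : ℤ → ℤ) (Y H W N : ℕ) (s : ℝ), SysP g F → H₀ ≤ H →
  (∀ n ∈ Ioc Y (Y + H), F (n : ℤ) ≠ 0 ∧ |F (n : ℤ)| ≤ (H : ℤ) ^ g) →
  1 ≤ W → 1 ≤ N → (W : ℝ) ≤ Real.log H ^ B' → (N : ℝ) ≤ Real.log H ^ B' → s₀ ≤ s →
  (∀ p : ℕ, p.Prime → (p : ℝ) ≤ s → p ∣ W) →
  ∃ ν : ℕ → ℝ, (∀ n, 0 ≤ ν n) ∧ (∀ n ∈ Ioc Y (Y + H), ν n ≤ Real.log H ^ B) ∧
    (∀ n ∈ Ioc Y (Y + H), (∀ p : ℕ, p.Prime → (p : ℝ) ≤ (H : ℝ) ^ δ → ¬ (p : ℤ) ∣ F (n : ℤ)) →
      c ≤ ν n * V F W H) ∧
    ∀ m ≤ M, ∀ t : Fin m → ℕ, Function.Injective t → (∀ i, 1 ≤ t i ∧ t i ≤ N) →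
      (∀ i j, t i < t j →
        ∑ p ∈ (PS W H).filter (fun p : ℕ => CF F (W * (t j - t i)) p), (1 : ℝ) / p ≤ ε) →
      (∀ i j, t i < t j → ∀ p : ℕ, p.Prime → Real.exp (√(Real.log H)) ≤ p → ¬ CF F (W * (t j - t i)) p) →
      ∀ b M₀ L : ℕ, (H : ℝ) ^ (1 / 2 : ℝ) ≤ L →
        |(∑ K ∈ Ioc M₀ (M₀ + L), ∏ i, ν (W * (K + t i) + b)) / L - 1| ≤ η

open Classical in
/-- the tuples with a common prime factor -/
theorem cnt_ncop2 (W z m R b M₀ L : ℕ) (F : ℤ → ℤ) (t : Fin m → ℕ)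
    (hinj : Function.Injective t) (lam : ℕ → ℝ)
    (hlam : ∀ d, lam d ≠ 0 → ∀ p : ℕ, p.Prime → p ∣ d → z < p)
    (hCF : ∀ i j, t i < t j → ∀ p : ℕ, p.Prime → z < p → ¬ CF F (W * (t j - t i)) p)
    (x : Fin m → ℕ × ℕ) (hx : ∀ i, x i ∈ TT R lam)
    (hcop : ¬ ∀ i j, i ≠ j → Nat.Coprime (Dl (x i)) (Dl (x j))) :
    cn F W z b M₀ L t x = 0 := by
  unfold cn
  rw [Nat.cast_eq_zero, card_eq_zero, filter_eq_empty_iff]
  intro K _ hK
  push Not at hcop
  obtain ⟨i, j, hij, hc⟩ := hcop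
  obtain ⟨p, hp, hpi, hpj⟩ := Nat.Prime.not_coprime_iff_dvd.1 hc
  have hpz : z < p := Dl_primes hlam (hx i) p hp hpi
  have h1 : (p : ℤ) ∣ F ((W * (K + t i) + b : ℕ) : ℤ) := (Int.natCast_dvd_natCast.2 hpi).trans (hK i)
  have h2 : (p : ℤ) ∣ F ((W * (K + t j) + b : ℕ) : ℤ) := (Int.natCast_dvd_natCast.2 hpj).trans (hK j)
  -- reduction to `t i < t j`
  have key : ∀ i j, t i < t j → (p : ℤ) ∣ F ((W * (K + t i) + b : ℕ) : ℤ) →
      (p : ℤ) ∣ F ((W * (K + t j) + b : ℕ) : ℤ) → False := by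
    intro i j hac h1 h2
    have e : ((W * (K + t j) + b : ℕ) : ℤ) = ((W * (K + t i) + b : ℕ) : ℤ) + ((W * (t j - t i) : ℕ) : ℤ) := by
      have : W * (K + t j) + b = W * (K + t i) + b + W * (t j - t i) := by
        obtain ⟨k, hk⟩ : ∃ k, t j = t i + k := ⟨t j - t i, by omega⟩
        rw [hk, Nat.add_sub_cancel_left]
        ring
      rw [this]
      push_cast
      rfl
    rw [e] at h2
    exact hCF i j hac p hp hpz ⟨_, h1, h2⟩
  have hne : t i ≠ t j := fun h => hij (hinj h)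
  rcases lt_or_gt_of_ne hne with h | h
  · exact key _ _ h h1 h2
  · exact key _ _ h h2 h1

set_option maxHeartbeats 4000000 in
theorem maj2 (h1 : Pool.Agent.K3h89.SZ.S_C1P) (h2 : Pool.Agent.Y677.RSZ.S_SEL) (h3 : S_LOCX)
    (h4 : Pool.Agent.K3h89.SZ.S_CLSP) (h5 : Pool.Agent.Y677.RSZ.S_MER) : S_MAJ2 := by
  classical
  intro g M₁ δ hδ
  obtain ⟨C, hC1, hC⟩ := h1
  obtain ⟨CS, hCS, hSel⟩ := h2 g
  obtain ⟨M, hM⟩ : ∃ M, M = max M₁ 1 := ⟨_, rfl⟩
  have hM1 : 1 ≤ M := hM ▸ le_max_right _ _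
  have hMM : M₁ ≤ M := hM ▸ le_max_left _ _
  have hMr : (1 : ℝ) ≤ M := by exact_mod_cast hM1
  have hMr0 : (0 : ℝ) < M := by linarith
  have hCr1 : (1 : ℝ) ≤ C := by exact_mod_cast hC1
  have hCr : (0 : ℝ) < C := by linarith
  have hg0 : (0 : ℝ) ≤ g := Nat.cast_nonneg g
  obtain ⟨θ, hθd⟩ : ∃ θ, θ = min (1 / (64 * (C : ℝ) * M * (g + 1))) (δ / 2) := ⟨_, rfl⟩
  have hθ0 : 0 < θ := by rw [hθd]; exact lt_min (by positivity) (by positivity)
  have hθ1 : θ ≤ 1 / (64 * (C : ℝ) * M * (g + 1)) := hθd ▸ min_le_left _ _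
  have hθ2 : θ ≤ δ / 2 := hθd ▸ min_le_right _ _
  have hθ3 : θ ≤ 1 := by
    refine hθ1.trans ?_
    rw [div_le_one (by positivity)]
    have e1 : 1 ≤ (C : ℝ) * M := by nlinarith
    have e2 : 1 ≤ (C : ℝ) * M * (g + 1) := by nlinarith
    linarith
  obtain ⟨cM, hcM, hMer⟩ := h5 g (max 1 (2 / θ)) (le_max_left _ _)
  refine ⟨cM / CS, by positivity, fun η₀ hη₀ => ?_⟩
  obtain ⟨η, hηd⟩ : ∃ η, η = min η₀ 1 := ⟨_, rfl⟩
  have hη1 : η ≤ 1 := hηd ▸ min_le_right _ _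
  have hηη : η ≤ η₀ := hηd ▸ min_le_left _ _
  have hη : 0 < η := by rw [hηd]; exact lt_min hη₀ one_pos
  choose ε₀ hε₀ s₀ hs₀ using fun m => h3 g m (η / 4) (by positivity)
  obtain ⟨m0, _, hm0⟩ := Finset.exists_min_image (range (M + 1)) ε₀ ⟨0, mem_range.2 (by omega)⟩
  obtain ⟨ε, hε⟩ : ∃ ε, ε = ε₀ m0 := ⟨_, rfl⟩
  have hε0 : 0 < ε := hε ▸ hε₀ m0
  have hεm : ∀ m, m ≤ M → ε ≤ ε₀ m := by
    intro m hm
    rw [hε]
    exact hm0 m (mem_range.2 (by omega))
  obtain ⟨s1, hs1⟩ : ∃ s1, s1 = ∑ m ∈ range (M + 1), |s₀ m| := ⟨_, rfl⟩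
  have hs1m : ∀ m, m ≤ M → s₀ m ≤ s1 := by
    intro m hm
    rw [hs1]
    exact (le_abs_self _).trans (single_le_sum (f := fun m => |s₀ m|) (fun _ _ => abs_nonneg _)
      (mem_range.2 (by omega)))
  obtain ⟨B1, R1, hR1⟩ := prc g (2 * (g + 1)).factorial (Nat.factorial_pos _)
    (fun p hp hpl => (Nat.Prime.dvd_factorial hp).2 hpl)
  refine ⟨ε, hε0, (2 * (4 + B1) + 1) * (64 * C * g * M) + 2 * B1,
    max s1 ((C * (g * M + 1) + 2 * (g + 1) : ℕ) : ℝ), fun B' => ?_⟩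
  have hev := (Real.tendsto_log_atTop.comp tendsto_natCast_atTop_atTop).eventually
    (asym M C g B1 B' (R1 + (2 * g + 2)) hM1 hC1 θ η hθ0 hη)
  obtain ⟨X₀, hX₀⟩ := eventually_atTop.1 hev
  refine ⟨max X₀ 2, fun F Y H W N s hSys hH hF hW1 hN1 hWH hNH hs hps => ?_⟩
  obtain ⟨b, hb1, hb2, hb3, hb4, hb5, hb6, hb7, hb8, hb9, hb10, hb11⟩ :=
    hX₀ H ((le_max_left _ _).trans hH)
  simp only [Function.comp] at hb3 hb4 hb5 hb6 hb7 hb8 hb9 hb10 hb11
  obtain ⟨l, hl⟩ : ∃ l, l = Real.log H := ⟨_, rfl⟩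
  rw [← hl] at hb3 hb4 hb5 hb6 hb7 hb8 hb9 hb10 hb11 hWH hNH ⊢
  have hH2 : 2 ≤ H := (le_max_right _ _).trans hH
  have hH0 : (0 : ℝ) < H := by
    have : 0 < H := by omega
    exact_mod_cast this
  have hHe : Real.exp l = H := by rw [hl, Real.exp_log hH0]
  have hl0 : 0 < l := by linarith
  have hl1 : 1 ≤ l := by linarith
  obtain ⟨b₀, hb₀⟩ : ∃ b₀ : ℕ, b₀ = 2 * M * b := ⟨_, rfl⟩
  rw [← hb₀] at hb3 hb5 hb11
  have hbpos : 0 < b := by
    have h1 : (0 : ℝ) < b := lt_of_lt_of_le (by positivity) hb2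
    exact_mod_cast h1
  have hbb₀ : b ≤ b₀ := by
    rw [hb₀]
    exact Nat.le_mul_of_pos_left b (by omega)
  have hb0 : 0 < b₀ := by omega
  have hbr : (0 : ℝ) < b₀ := by exact_mod_cast hb0
  have hbbr : (b : ℝ) ≤ b₀ := by exact_mod_cast hbb₀
  have hsq0 : 0 < Real.sqrt l := Real.sqrt_pos.2 hl0
  have hsq1 : 1 ≤ Real.sqrt l := Real.one_le_sqrt.2 (by linarith)
  have hlog2 : 0.6931471803 < Real.log 2 := Real.log_two_gt_d9
  have hlog20 : 0 < Real.log 2 := by linarith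
  -- the level `z`
  have hy1 : 1 ≤ l / (8 * C * b₀ * Real.log 2) := aux9 C b₀ _ l hCr hbr hsq1 hb3
  obtain ⟨J, hJ1, hJ2⟩ := exists_nat_pow_near hy1 (by norm_num : (1 : ℝ) < 2)
  rw [le_div_iff₀ (by positivity)] at hJ1
  rw [div_lt_iff₀ (by positivity)] at hJ2
  obtain ⟨z, hz⟩ : ∃ z : ℕ, z = 2 ^ 2 ^ J := ⟨_, rfl⟩
  have hzr : (z : ℝ) = (2 : ℝ) ^ 2 ^ J := by rw [hz]; push_cast; rfl
  have hlz : Real.log z = 2 ^ J * Real.log 2 := by
    rw [hzr, Real.log_pow]; push_cast; rfl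
  have hz2 : 2 ≤ z := by
    rw [hz]
    calc 2 = 2 ^ 1 := rfl
      _ ≤ 2 ^ 2 ^ J := Nat.pow_le_pow_right (by norm_num) Nat.one_le_two_pow
  have hz0 : (0 : ℝ) < z := by
    have : 0 < z := by omega
    exact_mod_cast this
  have hz1' : 8 * (C : ℝ) * b₀ * Real.log z ≤ l := by rw [hlz]; linarith
  have hz2' : l < 16 * (C : ℝ) * b₀ * Real.log z := by
    rw [hlz]
    rw [pow_succ] at hJ2
    linarith
  have hlz0 : 0 < Real.log z := by rw [hlz]; positivity
  have hsz : Real.sqrt l < Real.log z := aux11 C b₀ _ _ l hCr hbr hb3 hz2'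
  have hez : Real.exp (Real.sqrt l) < z := by
    rw [← Real.exp_log hz0]
    exact Real.exp_lt_exp.2 hsz
  have hlzl : Real.log z ≤ θ * l / 2 := aux_z θ b _ l C b₀ hCr1 hb2 hθ0 hbbr hlz0.le hz1'
  have hR1z : R1 + (2 * g + 2) ≤ z := by
    have : ((R1 + (2 * g + 2) : ℕ) : ℝ) ≤ z := hb8.trans hez.le
    exact_mod_cast this
  -- the level `R`
  obtain ⟨R, hR⟩ : ∃ R : ℕ, R = ⌊Real.exp (θ * l)⌋₊ := ⟨_, rfl⟩
  have hRle : (R : ℝ) ≤ Real.exp (θ * l) := by
    rw [hR]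
    exact Nat.floor_le (Real.exp_pos _).le
  have hRge : Real.exp (θ * l / 2) ≤ R := by
    have e1 : Real.exp (θ * l) < (R : ℝ) + 1 := by rw [hR]; exact Nat.lt_floor_add_one _
    have e2 : θ * l = θ * l / 2 + θ * l / 2 := by ring
    rw [e2, Real.exp_add] at e1
    refine aux3 _ _ e1 ?_
    have := Real.add_one_le_exp (θ * l / 2)
    linarith
  have hzR : z ≤ R := by
    have : (z : ℝ) ≤ R := by
      rw [← Real.exp_log hz0]
      exact (Real.exp_le_exp.2 hlzl).trans hRge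
    exact_mod_cast this
  have hR0 : (0 : ℝ) < R := lt_of_lt_of_le (Real.exp_pos _) hRge
  have hlR1 : θ * l / 2 ≤ Real.log R := by
    rw [Real.le_log_iff_exp_le hR0]
    exact hRge
  have hlR2 : Real.log R ≤ θ * l := by
    rw [Real.log_le_iff_le_exp hR0]
    exact hRle
  have hθl : θ * l ≤ l := by
    calc θ * l ≤ 1 * l := by gcongr
      _ = l := one_mul l
  have hlR3 : Real.log R ≤ l := hlR2.trans hθl
  have hlR0 : 0 < Real.log R := lt_of_lt_of_le (by positivity) hlR1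
  have hRH : R ≤ H := by
    have : (R : ℝ) ≤ H := by
      rw [← hHe]
      exact hRle.trans (Real.exp_le_exp.2 hθl)
    exact_mod_cast this
  have hRδ : (R : ℝ) ≤ (H : ℝ) ^ δ := by
    rw [Real.rpow_def_of_pos hH0, ← hl]
    refine hRle.trans (Real.exp_le_exp.2 ?_)
    have : θ * l ≤ δ * l := by
      gcongr
      linarith
    linarith
  -- the modulus
  have hWz : W ≤ z := by
    have e1 : l ^ B' ≤ l ^ (2 * B' * (g + 1)) := pow_le_pow_right₀ hl1 (aux_e1 B' g)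
    have : (W : ℝ) ≤ z := hWH.trans (e1.trans (hb4.trans hez.le))
    exact_mod_cast this
  have hs1s : s1 ≤ s := (le_max_left _ _).trans hs
  have hs2s : ((C * (g * M + 1) + 2 * (g + 1) : ℕ) : ℝ) ≤ s := (le_max_right _ _).trans hs
  have hWp : ∀ p : ℕ, p.Prime → p ≤ C * (g * M + 1) + 2 * (g + 1) → p ∣ W := by
    intro p hp hpl
    apply hps p hp
    refine le_trans ?_ hs2s
    exact_mod_cast hpl
  -- the weights
  obtain ⟨lam, hlam1, hlamb, hsupp, hGlo, hGup⟩ := hSel (rt F) z R (by omega) hzR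
    (fun p hp => (hSys.root p hp).1)
  obtain ⟨G, hG⟩ : ∃ G, G = qfr (rt F) R lam := ⟨_, rfl⟩
  rw [← hG] at hGup hGlo
  have hPR0 : 0 < PR (rt F) z R := PR_posW hSys z R
  have hG0 : 0 < G := lt_of_lt_of_le hPR0 hGlo
  obtain ⟨Vz, hV⟩ : ∃ Vz, Vz = V F W z := ⟨_, rfl⟩
  have hV0 : 0 < Vz := hV ▸ V_posW hSys W z
  have hVG0 : 0 < Vz * G := by positivity
  have hVlow : 1 / Real.log z ^ B1 ≤ Vz := by
    rw [hV]
    exact (hR1 z (by omega)).trans (V_lowW hSys W z (fun p hp hpl => hWp p hp (by omega)))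
  have hGlow : 1 / Real.log R ^ B1 ≤ G :=
    (hR1 R (by omega)).trans ((PR_lowW hSys z R (by omega)).trans hGlo)
  have hlz2 : Real.log z ≤ l := hlzl.trans (by linarith)
  have hVinv : 1 / Vz ≤ l ^ B1 := by
    have e1 : 1 / Vz ≤ Real.log z ^ B1 := aux13 Vz _ B1 hV0 hlz0 hVlow
    exact e1.trans (pow_le_pow_left₀ hlz0.le hlz2 B1)
  have hGinv : 1 / G ≤ l ^ B1 := by
    have e1 : 1 / G ≤ Real.log R ^ B1 := aux13 G _ B1 hG0 hlR0 hGlow
    exact e1.trans (pow_le_pow_left₀ hlR0.le hlR3 B1)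
  have hVGinv : 1 / (Vz * G) ≤ l ^ (2 * B1) := by
    have e1 : 1 / (Vz * G) = (1 / Vz) * (1 / G) := by rw [one_div_mul_one_div]
    rw [e1, two_mul, pow_add]
    have e3 : 0 ≤ 1 / G := by positivity
    gcongr
  have hsupp' : ∀ d, lam d ≠ 0 → 1 ≤ d ∧ d ≤ R ∧ ∀ p : ℕ, p.Prime → p ∣ d → z < p := by
    intro d hd
    have := hsupp d hd
    exact ⟨this.1, this.2.1, this.2.2.2⟩
  refine ⟨nuM F W z R lam (Vz * G), ?_, ?_, ?_, ?_⟩
  · intro n
    unfold nuM
    split_ifs <;> positivity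
  · -- the pointwise bound
    intro n hn
    obtain ⟨hFn0, hFn⟩ := hF n hn
    have hpos : (0 : ℝ) ≤ l ^ ((2 * (4 + B1) + 1) * (64 * C * g * M) + 2 * B1) := by positivity
    unfold nuM
    split_ifs with hr
    · rw [ds_eq R lam (fun d hd => ⟨(hsupp d hd).1, (hsupp d hd).2.1⟩) _ hFn0]
      obtain ⟨k, hk1, hk2⟩ := div_bound R z lam (fun d hd => by
          have := hsupp d hd
          exact ⟨this.2.2.1, this.1, this.2.1, this.2.2.2⟩) hlamb (F (n : ℤ)).natAbs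
          (Int.natAbs_pos.2 hFn0)
      have hk : k ≤ 16 * C * g * b₀ := by
        have e0 : (F (n : ℤ)).natAbs ≤ H ^ g := by
          have : ((F (n : ℤ)).natAbs : ℤ) ≤ ((H ^ g : ℕ) : ℤ) := by
            rw [Int.natCast_natAbs]
            push_cast
            exact hFn
          exact_mod_cast this
        have e1 : (z : ℝ) ^ k ≤ (H : ℝ) ^ g := by exact_mod_cast hk1.trans e0
        have e2 := Real.log_le_log (by positivity) e1
        rw [Real.log_pow, Real.log_pow, ← hl] at e2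
        have e4 : (k : ℝ) ≤ 16 * C * g * b₀ := aux_k g k C b₀ _ l hlz0 hg0 e2 hz2'
        exact_mod_cast e4
      have e5 : (4 : ℝ) ^ k ≤ l ^ ((2 * (4 + B1) + 1) * (64 * C * g * M)) := by
        calc (4 : ℝ) ^ k ≤ 4 ^ (16 * C * g * b₀) := pow_le_pow_right₀ (by norm_num) hk
          _ = 2 ^ (32 * C * g * b₀) := by
            rw [show (4 : ℝ) = 2 ^ 2 by norm_num, ← pow_mul]
            congr 1
            ring
          _ ≤ _ := hb11
      calc (∑ d ∈ (F (n : ℤ)).natAbs.divisors, lam d) ^ 2 / (Vz * G) =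
            (∑ d ∈ (F (n : ℤ)).natAbs.divisors, lam d) ^ 2 * (1 / (Vz * G)) := by
            rw [mul_one_div]
        _ ≤ l ^ ((2 * (4 + B1) + 1) * (64 * C * g * M)) * l ^ (2 * B1) := by
            have := hk2.trans e5
            have e6 : 0 ≤ 1 / (Vz * G) := by positivity
            gcongr
        _ = _ := by rw [← pow_add]
    · exact hpos
  · -- the lower bound
    intro n hn hsm
    have hnu : nuM F W z R lam (Vz * G) n = 1 / (Vz * G) := by
      unfold nuM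
      rw [if_pos]
      · have e1 : ds R lam (F (n : ℤ)) = 1 := by
          unfold ds
          rw [sum_eq_single 1]
          · exact hlam1
          · intro d hd hd1
            by_contra hne
            obtain ⟨p, hp, hpd⟩ := Nat.exists_prime_and_dvd hd1
            rw [mem_filter, mem_Icc] at hd
            have h6 : p ≤ R := (Nat.le_of_dvd (by omega) hpd).trans hd.1.2
            refine hsm p hp ?_ ((Int.natCast_dvd_natCast.2 hpd).trans hd.2)
            refine le_trans ?_ hRδ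
            exact_mod_cast h6
          · intro h7
            exfalso
            apply h7
            rw [mem_filter, mem_Icc]
            refine ⟨⟨le_rfl, by omega⟩, by simp⟩
        rw [e1, one_pow]
      · intro p hp
        rw [mem_PS] at hp
        apply hsm p hp.2.1
        refine le_trans ?_ hRδ
        exact_mod_cast hp.1.2.trans hzR
    rw [hnu, V_split F W R H hW1 (hWz.trans hzR) hRH, V_split F W z R hW1 hWz hzR, ← hV]
    apply aux_v Vz G cM CS _ _ hV0 hG0 hCS hPR0 hcM hGup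
    apply PR_merW hSys R H (by omega)
    apply hMer R H (by omega) hRH
    have e1 : 2 / θ * (θ * l / 2) = l := by field_simp
    calc Real.log H = 2 / θ * (θ * l / 2) := by rw [e1, hl]
      _ ≤ max 1 (2 / θ) * Real.log R := by
        gcongr
        exact le_max_right _ _
  · -- correlations
    intro m hm t hinj ht hsum hlarge b' M₀ L hL
    refine le_trans ?_ hηη
    have hmM : m ≤ M := hm.trans hMM
    have hmr : (m : ℝ) ≤ M := by exact_mod_cast hmM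
    have hLe : Real.exp (l / 2) ≤ L := by
      refine le_trans (le_of_eq ?_) hL
      rw [Real.rpow_def_of_pos hH0, ← hl]
      congr 1
      ring
    have hL0 : (0 : ℝ) < L := lt_of_lt_of_le (Real.exp_pos _) hLe
    rw [sum_nuM]
    have hloc := hs₀ m s ((hs1m m hmM).trans hs1s) W hW1 hps F hSys z t b' hinj (by
        intro i j hij
        refine le_trans ?_ ((hsum i j hij).trans (hεm m hmM))
        apply sum_le_sum_of_subset_of_nonneg
        · intro p hp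
          rw [mem_filter, mem_PS] at hp ⊢
          exact ⟨⟨⟨hp.1.1.1, hp.1.1.2.trans (hzR.trans hRH)⟩, hp.1.2⟩, hp.2⟩
        · intro p _ _
          positivity)
    rw [← hV] at hloc
    obtain ⟨Vu, hVu⟩ : ∃ Vu, Vu = ∏ p ∈ PS W z, (1 - (rhoT F W b' t p : ℝ) / p) := ⟨_, rfl⟩
    rw [← hVu] at hloc
    have hVu0 : 0 ≤ Vu := aux6 Vu (Vz ^ m) η hloc hη1 (by positivity)
    have hρT : ∀ t ∈ TT R lam, (rs (rt F) (Dl t) : ℝ) ≤ (2 : ℝ) ^ b := by
      intro t ht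
      have e1 := rs_bound g (rt F) (fun p hp => (hSys.root p hp).1) (Dl t)
      have e2 := omega_bound (fun d hd => (hsupp' d hd).2.2) ht
      have e3 : g * (Dl t).primeFactors.card ≤ b := by
        apply exp_small g C M b _ θ (Real.log z) l (Real.log R) hM1 hC1 hθ0 hθ1 hlz0 _ hlR2
          (by rw [← hb₀]; exact hz2')
        have e4 : (z : ℝ) ^ (Dl t).primeFactors.card ≤ (R : ℝ) ^ 2 := by exact_mod_cast e2
        have e5 := Real.log_le_log (by positivity) e4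
        rw [Real.log_pow, Real.log_pow] at e5
        exact_mod_cast e5
      have e6 : rs (rt F) (Dl t) ≤ 2 ^ b := by
        refine e1.trans ?_
        rw [← pow_mul]
        exact Nat.pow_le_pow_right (by norm_num) e3
      exact_mod_cast e6
    have hcorr := corr m R z lam (by omega) hsupp' hlamb (fun d => (rs (rt F) d : ℝ)) ((2 : ℝ) ^ b)
      (by positivity) (fun _ _ => Nat.cast_nonneg _) hρT
      (fun x => cn F W z b' M₀ L t x) (L * Vu) ((1 / 2 : ℝ) ^ b₀)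
      (((2 : ℝ) ^ b) ^ m * ((2 : ℝ) ^ 2 ^ J) ^ (C * b₀)) (by positivity) (by positivity) (by positivity)
      (by
        intro x hx hcop
        rw [hVu]
        subst hz
        exact cnt_copP h4 C b₀ W J m R F hSys.per t b' M₀ L lam ((2 : ℝ) ^ b)
          (fun d hd => (hsupp' d hd).2.2) (fun d hd => (hsupp d hd).2.2.1) hW1 hWz hρT
          (fun D a hD hDp => hC g m b₀ W (by
            refine le_trans ?_ (hb1.trans hbb₀)
            gcongr) hW1 (fun p hp hpC => hWp p hp (hpC.trans (le_trans (by gcongr) (Nat.le_add_right _ _))))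
            F hSys t b' J D a M₀ L hD hDp) x hx hcop)
      (by
        intro x hx hcop
        exact cnt_ncop2 W z m R b' M₀ L F t hinj lam (fun d hd => (hsupp' d hd).2.2)
          (fun i j hij p hp hzp => hlarge i j hij p hp (hez.le.trans (by exact_mod_cast hzp.le)))
          x hx hcop)
    rw [← qfr_eq, ← hG] at hcorr
    have hRX2 : (R : ℝ) ^ (2 * m) ≤ Real.exp (l / 16) := by
      calc (R : ℝ) ^ (2 * m) ≤ Real.exp (θ * l) ^ (2 * m) := pow_le_pow_left₀ hR0.le hRle _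
        _ = Real.exp ((2 * m : ℕ) * (θ * l)) := by rw [Real.exp_nat_mul]
        _ ≤ Real.exp (l / 16) := by
          apply Real.exp_le_exp.2
          exact aux_R θ l M C g m hmr hMr hCr1 hg0 hl0 hθ1 hθ0
    have hEe : ((2 : ℝ) ^ 2 ^ J) ^ (C * b₀) ≤ Real.exp (l / 8) := by
      rw [← hzr, pow_eq_exp z hz0]
      apply Real.exp_le_exp.2
      push_cast
      linarith
    have hlR3' : 0 ≤ Real.log R := hlR0.le
    have h2b1 : (1 : ℝ) ≤ 2 ^ b := one_le_pow₀ (by norm_num)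
    exact final_real m M hmM L Vz G Vu ((2 : ℝ) ^ b * (1 + Real.log R) ^ 3) _ z ((1 / 2 : ℝ) ^ b₀)
      (((2 : ℝ) ^ b) ^ m * ((2 : ℝ) ^ 2 ^ J) ^ (C * b₀)) ((R : ℝ) ^ (2 * m)) η
      ((2 : ℝ) ^ b * ((1 + l) ^ 3 * l ^ B1)) (l ^ (2 * B1)) hL0 hV0 hG0 hη
      hη1 hz0 (by positivity) (by positivity) (by positivity) (by positivity) hloc hcorr
      (by
        rw [div_eq_mul_one_div, mul_assoc]
        have e3 : 0 ≤ 1 / G := by positivity
        gcongr)
      (by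
        have e1 : (1 : ℝ) ≤ (1 + l) ^ 3 := one_le_pow₀ (by linarith)
        have e2 : (1 : ℝ) ≤ l ^ B1 := one_le_pow₀ hl1
        exact one_le_mul_of_one_le_of_one_le h2b1 (one_le_mul_of_one_le_of_one_le e1 e2))
      hVGinv (one_le_pow₀ (by linarith))
      (by
        refine le_trans ?_ hb6
        have e1 : 1 / (z : ℝ) ≤ Real.exp (-Real.sqrt l) := by
          rw [Real.exp_neg, one_div]
          exact inv_anti₀ (Real.exp_pos _) hez.le
        gcongr)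
      hb5
      (by
        refine le_trans ?_ hb7
        have e0 : ((2 : ℝ) ^ b) ^ m ≤ ((2 : ℝ) ^ b) ^ M := pow_le_pow_right₀ h2b1 hmM
        have e1 : (R : ℝ) ^ (2 * m) * (((2 : ℝ) ^ b) ^ m * ((2 : ℝ) ^ 2 ^ J) ^ (C * b₀)) / L ≤
            Real.exp (-(l / 4)) * ((2 : ℝ) ^ b) ^ M := by
          rw [div_le_iff₀ hL0]
          calc (R : ℝ) ^ (2 * m) * (((2 : ℝ) ^ b) ^ m * ((2 : ℝ) ^ 2 ^ J) ^ (C * b₀)) ≤
                Real.exp (l / 16) * (((2 : ℝ) ^ b) ^ M * Real.exp (l / 8)) := by gcongr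
            _ = (Real.exp (l / 16) * Real.exp (l / 8)) * ((2 : ℝ) ^ b) ^ M := by ring
            _ = Real.exp (3 / 16 * l) * ((2 : ℝ) ^ b) ^ M := by
                rw [← Real.exp_add]
                congr 2
                ring
            _ ≤ Real.exp (-(l / 4) + l / 2) * ((2 : ℝ) ^ b) ^ M := by
                gcongr
                linarith
            _ = Real.exp (-(l / 4)) * ((2 : ℝ) ^ b) ^ M * Real.exp (l / 2) := by
                rw [Real.exp_add]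
                ring
            _ ≤ Real.exp (-(l / 4)) * ((2 : ℝ) ^ b) ^ M * L := by gcongr
        calc (R : ℝ) ^ (2 * m) * (((2 : ℝ) ^ b) ^ m * ((2 : ℝ) ^ 2 ^ J) ^ (C * b₀)) / L *
              (l ^ (2 * B1)) ^ M ≤ Real.exp (-(l / 4)) * ((2 : ℝ) ^ b) ^ M * (l ^ (2 * B1)) ^ M := by
              gcongr
          _ = _ := by rw [mul_pow, mul_assoc])

end Pool.Agent.Zk41.LS
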