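import Pool.Agent.K3h89.SX.BADX
import Pool.Agent.K3h89.SX.MOM
import Pool.Agent.K3h89.SZ.LAR
import Pool.Agent.K3h89.SZ.Base

/-!
Systems of linear forms with integral coefficients of polynomial size: roots, common prime factors.
-/

set_option autoImplicit false

open Finset

namespace Pool.Agent.Zk41.LS

open Pool.Agent.TH423.SH (PS)
open Pool.Agent.Y677.RSZ (rt V)
open Pool.Agent.K3h89.SZ (SysP CF)

/-- the product of the linear forms `a i * x + b i` -/
def Fab {K : ℕ} (a b : Fin K → ℤ) (x : ℤ) : ℤ := ∏ i, (a i * x + b i)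

/-- no prime divides the product of the forms at every integer -/
def Adm {K : ℕ} (a b : Fin K → ℤ) : Prop := ∀ p : ℕ, p.Prime → ∃ x : ℤ, ¬ (p : ℤ) ∣ Fab a b x

/-- the resultant of the forms `a i * x + b i` and `a j * (x + h) + b j` -/
def Res {K : ℕ} (a b : Fin K → ℤ) (i j : Fin K) (h : ℤ) : ℤ := a i * a j * h + (a i * b j - a j * b i)

variable {K : ℕ} {a b : Fin K → ℤ}

theorem dvd_Fab {p : ℕ} (hp : p.Prime) (x : ℤ) : (p : ℤ) ∣ Fab a b x ↔ ∃ i, (p : ℤ) ∣ a i * x + b i := by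
  unfold Fab
  rw [Prime.dvd_finsetProd_iff (Nat.prime_iff_prime_int.1 hp)]
  simp

theorem Fab_per (p : ℕ) (hp : p.Prime) (n : ℤ) : (p : ℤ) ∣ Fab a b (n + p) ↔ (p : ℤ) ∣ Fab a b n := by
  rw [dvd_Fab hp, dvd_Fab hp]
  refine exists_congr fun i => ?_
  have : a i * (n + p) + b i = (a i * n + b i) + p * a i := by ring
  rw [this]
  exact (Int.dvd_add_left (Dvd.intro _ rfl))

/-- a prime factor of a form does not divide its leading coefficient -/
theorem not_dvd_lead (hA : Adm a b) {p : ℕ} (hp : p.Prime) (i : Fin K) {x : ℤ} (hx : (p : ℤ) ∣ a i * x + b i) :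
    ¬ (p : ℤ) ∣ a i := by
  intro h
  obtain ⟨y, hy⟩ := hA p hp
  apply hy
  rw [dvd_Fab hp]
  refine ⟨i, ?_⟩
  have h1 : (p : ℤ) ∣ b i := (Int.dvd_add_right (h.mul_right x)).1 hx
  exact dvd_add (h.mul_right y) h1

theorem rt_Fab (hA : Adm a b) {p : ℕ} (hp : p.Prime) : rt (Fab a b) p ≤ K ∧ rt (Fab a b) p < p := by
  classical
  constructor
  · unfold rt
    have hsub : (range p).filter (fun n : ℕ => (p : ℤ) ∣ Fab a b (n : ℤ)) ⊆
        (univ : Finset (Fin K)).biUnion (fun i => (range p).filter (fun n : ℕ => (p : ℤ) ∣ a i * (n : ℤ) + b i)) := by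
      intro n hn
      rw [mem_filter] at hn
      obtain ⟨i, hi⟩ := (dvd_Fab hp _).1 hn.2
      rw [mem_biUnion]
      exact ⟨i, mem_univ _, mem_filter.2 ⟨hn.1, hi⟩⟩
    refine (card_le_card hsub).trans (card_biUnion_le.trans ?_)
    have h1 : ∀ i ∈ (univ : Finset (Fin K)),
        ((range p).filter (fun n : ℕ => (p : ℤ) ∣ a i * (n : ℤ) + b i)).card ≤ 1 := by
      intro i _
      rw [card_le_one]
      intro n hn m hm
      rw [mem_filter, mem_range] at hn hm
      have hna := not_dvd_lead hA hp i hn.2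
      have h2 : (p : ℤ) ∣ a i * ((n : ℤ) - m) := by
        have := dvd_sub hn.2 hm.2
        have e : a i * (n : ℤ) + b i - (a i * (m : ℤ) + b i) = a i * ((n : ℤ) - m) := by ring
        rwa [e] at this
      have h3 : (p : ℤ) ∣ (n : ℤ) - m := ((Nat.prime_iff_prime_int.1 hp).dvd_or_dvd h2).resolve_left hna
      have h4 : (m : ℤ) ≡ n [ZMOD p] := (Int.modEq_iff_dvd).2 h3
      have h5 : m ≡ n [MOD p] := (Int.natCast_modEq_iff).1 h4
      have h6 : m % p = n % p := h5
      rw [Nat.mod_eq_of_lt hn.1, Nat.mod_eq_of_lt hm.1] at h6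
      exact h6.symm
    calc ∑ i : Fin K, ((range p).filter (fun n : ℕ => (p : ℤ) ∣ a i * (n : ℤ) + b i)).card ≤ ∑ _i : Fin K, 1 :=
          sum_le_sum h1
      _ = K := by simp
  · obtain ⟨x, hx⟩ := hA p hp
    have hp0 : (p : ℤ) ≠ 0 := by exact_mod_cast hp.ne_zero
    have hper : ∀ (n : ℤ) (k : ℕ), (p : ℤ) ∣ Fab a b (n + k * p) ↔ (p : ℤ) ∣ Fab a b n := by
      intro n k
      induction k with
      | zero => simp
      | succ k ih =>
        rw [← ih]
        have e : n + ((k + 1 : ℕ) : ℤ) * p = (n + k * p) + p := by push_cast; ring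
        rw [e]
        exact Fab_per p hp _
    obtain ⟨r, hr⟩ : ∃ r : ℕ, (r : ℤ) = x % p := ⟨(x % p).toNat, Int.toNat_of_nonneg (Int.emod_nonneg _ hp0)⟩
    have hrp : r < p := by
      have := Int.emod_lt_of_pos x (show (0 : ℤ) < p by exact_mod_cast hp.pos)
      rw [← hr] at this
      exact_mod_cast this
    have hrx : ¬ (p : ℤ) ∣ Fab a b (r : ℤ) := by
      intro h
      apply hx
      rw [dvd_Fab hp] at h ⊢
      obtain ⟨i, hi⟩ := h
      refine ⟨i, ?_⟩
      have e : a i * x + b i = (a i * (r : ℤ) + b i) + p * (a i * (x / p)) := by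
        have h1 := Int.emod_add_mul_ediv x p
        rw [← hr] at h1
        calc a i * x + b i = a i * ((r : ℤ) + p * (x / p)) + b i := by rw [h1]
          _ = _ := by ring
      rw [e]
      exact dvd_add hi (Dvd.intro _ rfl)
    unfold rt
    have : (range p).filter (fun n : ℕ => (p : ℤ) ∣ Fab a b (n : ℤ)) ⊆ (range p).erase r := by
      intro n hn
      rw [mem_filter] at hn
      rw [mem_erase]
      refine ⟨?_, hn.1⟩
      rintro rfl
      exact hrx hn.2
    refine lt_of_le_of_lt (card_le_card this) ?_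
    rw [card_erase_of_mem (mem_range.2 hrp), card_range]
    have := hp.pos
    omega

theorem sys_Fab (hA : Adm a b) (g : ℕ) (hg : K ≤ g) : SysP g (Fab a b) :=
  ⟨fun p hp n => Fab_per p hp n, fun p hp => ⟨(rt_Fab hA hp).1.trans hg, (rt_Fab hA hp).2⟩⟩

/-- the common prime factors -/
theorem cf_Fab (hA : Adm a b) {h p : ℕ} (hp : p.Prime) (hcf : CF (Fab a b) h p) :
    ∃ i j, (p : ℤ) ∣ Res a b i j h ∧ ¬ (p : ℤ) ∣ a i * a j := by
  obtain ⟨x, hx, hy⟩ := hcf
  obtain ⟨i, hi⟩ := (dvd_Fab hp _).1 hx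
  obtain ⟨j, hj⟩ := (dvd_Fab hp _).1 hy
  refine ⟨i, j, ?_, ?_⟩
  · have e : Res a b i j h = a i * (a j * (x + h) + b j) - a j * (a i * x + b i) := by
      unfold Res
      ring
    rw [e]
    exact dvd_sub (hj.mul_left _) (hi.mul_left _)
  · intro h1
    rcases (Nat.prime_iff_prime_int.1 hp).dvd_or_dvd h1 with h2 | h2
    · exact not_dvd_lead hA hp i hi h2
    · exact not_dvd_lead hA hp j hj h2

end Pool.Agent.Zk41.LS
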