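import Pool.Agent.Zk41.LS.C
import Pool.Agent.Y677.RSZ.Eng4

/-!
Systems of linear forms with integral coefficients of polynomial size: for most differences the common prime factors
are few, and the large common prime factors are few for all differences together.
-/

set_option autoImplicit false

open Finset Filter Topology

namespace Pool.Agent.Zk41.LS

open Pool.Agent.TH423.SH (PS)
open Pool.Agent.K3h89.SZ (SysP CF lar_cnt lar_union)
open Pool.Agent.K3h89.SX (big_primes mom)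
open Pool.Agent.Y677.RSZ (ev_log)

variable {K : ℕ} {a b : Fin K → ℤ}

/-- the size of the resultant -/
theorem res_le (C H : ℕ) (hH : 3 ≤ H) (hab : ∀ i, |a i| ≤ (H : ℤ) ^ C ∧ |b i| ≤ (H : ℤ) ^ C) (i j : Fin K)
    (h : ℕ) (hh : h ≤ H) : |Res a b i j h| ≤ (H : ℤ) ^ (2 * C + 2) := by
  have hH' : (3 : ℤ) ≤ H := by exact_mod_cast hH
  have hP : (0 : ℤ) ≤ (H : ℤ) ^ C := by positivity
  have e1 : |a i * a j * (h : ℤ)| ≤ (H : ℤ) ^ C * (H : ℤ) ^ C * H := by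
    rw [abs_mul, abs_mul, Nat.abs_cast]
    have : (h : ℤ) ≤ H := by exact_mod_cast hh
    exact mul_le_mul (mul_le_mul (hab i).1 (hab j).1 (abs_nonneg _) hP) this (by positivity) (by positivity)
  have e2 : |a i * b j| ≤ (H : ℤ) ^ C * (H : ℤ) ^ C := by
    rw [abs_mul]
    exact mul_le_mul (hab i).1 (hab j).2 (abs_nonneg _) hP
  have e3 : |a j * b i| ≤ (H : ℤ) ^ C * (H : ℤ) ^ C := by
    rw [abs_mul]
    exact mul_le_mul (hab j).1 (hab i).2 (abs_nonneg _) hP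
  have e4 : |Res a b i j h| ≤ |a i * a j * (h : ℤ)| + (|a i * b j| + |a j * b i|) := by
    unfold Res
    exact (abs_add_le _ _).trans (add_le_add le_rfl (abs_sub _ _))
  have e5 : (H : ℤ) ^ (2 * C + 2) = (H : ℤ) ^ C * (H : ℤ) ^ C * (H * H) := by ring
  rw [e5]
  have e6 : (0 : ℤ) ≤ (H : ℤ) ^ C * (H : ℤ) ^ C := by positivity
  have e7 : (H : ℤ) + 2 ≤ H * H := by nlinarith
  have e8 := mul_le_mul_of_nonneg_left e7 e6
  linarith

theorem sum_biU {ι : Type*} (I : Finset ι) (T : ι → Finset ℕ) (S : Finset ℕ) [DecidableEq ι]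
    (hS : ∀ p ∈ S, ∃ i ∈ I, p ∈ T i) : ∑ p ∈ S, (1 : ℝ) / p ≤ ∑ i ∈ I, ∑ p ∈ T i, (1 : ℝ) / p := by
  have h1 : S ⊆ I.biUnion T := by
    intro p hp
    rw [mem_biUnion]
    exact hS p hp
  refine (sum_le_sum_of_subset_of_nonneg h1 fun _ _ _ => by positivity).trans ?_
  have : ∀ (J : Finset ι), ∑ p ∈ J.biUnion T, (1 : ℝ) / p ≤ ∑ i ∈ J, ∑ p ∈ T i, (1 : ℝ) / p := by
    intro J
    induction J using Finset.induction_on with
    | empty => simp
    | insert x J hx ih =>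
      rw [biUnion_insert, sum_insert hx]
      exact (Pool.Agent.K3h89.SX.sum_un _ _).trans (add_le_add le_rfl ih)
  exact this I

open Classical in
theorem badL (K C B : ℕ) (ε : ℝ) (hε : 0 < ε) : ∃ H₀ : ℕ, ∀ H : ℕ, H₀ ≤ H → ∀ a b : Fin K → ℤ, Adm a b →
    (∀ i, a i ≠ 0) → (∀ i, |a i| ≤ (H : ℤ) ^ C ∧ |b i| ≤ (H : ℤ) ^ C) →
    ∀ W N : ℕ, 1 ≤ W → (W : ℝ) ≤ Real.log H ^ B → Real.log H ^ 8 ≤ N → (N : ℝ) ≤ Real.log H ^ B →
    (∀ p : ℕ, p.Prime → (p : ℝ) ≤ Real.log N → p ∣ W) →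
    (((Icc 1 N).filter (fun j : ℕ =>
      ε < ∑ p ∈ (PS W H).filter (fun p : ℕ => CF (Fab a b) (W * j) p), (1 : ℝ) / p ∨
        ∃ i i', Res a b i i' ((W * j : ℕ) : ℤ) = 0)).card : ℝ) ≤ (N : ℝ) ^ (4 / 5 : ℝ) := by
  obtain ⟨ε', hε'⟩ : ∃ ε' : ℝ, ε' = ε / (2 * ((K : ℝ) ^ 2 + 1)) := ⟨_, rfl⟩
  have hε0 : 0 < ε' := by rw [hε']; positivity
  obtain ⟨N₀, hMOM⟩ := mom ε' hε0
  have hlog : Filter.Tendsto (fun H : ℕ => Real.log H) Filter.atTop Filter.atTop :=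
    Real.tendsto_log_atTop.comp tendsto_natCast_atTop_atTop
  obtain ⟨H₀, hH₀⟩ := Filter.eventually_atTop.1 (((((hlog.eventually_ge_atTop
    (8 : ℝ)).and (hlog.eventually_ge_atTop (N₀ : ℝ))).and
    ((hlog.eventually_ge_atTop ((2 * ((K : ℝ) ^ 2 + 1)) ^ 20)).and
      (hlog.eventually_ge_atTop ((4 * (C : ℝ) + 4) / ε')))).and
    (ev_log (2 * B) 2 1 one_pos)).and (Filter.eventually_ge_atTop (5 : ℕ)))
  refine ⟨H₀, ?_⟩
  intro H hH a b hA ha hab W N hW hWB hlN hNB hpW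
  obtain ⟨⟨⟨⟨e1, e2⟩, e3, e4⟩, e5⟩, e6⟩ := hH₀ H hH
  obtain ⟨l, hl⟩ : ∃ l : ℝ, l = Real.log H := ⟨_, rfl⟩
  rw [← hl] at e1 e2 e3 e4 e5 hWB hlN hNB
  have hl0 : 0 < l := by linarith
  have hl1 : 1 ≤ l := by linarith
  have hN1 : l ≤ N := le_trans (le_self_pow₀ hl1 (by norm_num)) hlN
  have hN0 : (0 : ℝ) < N := by linarith
  have hNN₀ : N₀ ≤ N := by
    have : (N₀ : ℝ) ≤ N := e2.trans hN1
    exact_mod_cast this
  obtain ⟨z, hz⟩ : ∃ z : ℕ, z = Nat.sqrt (Nat.sqrt N) := ⟨_, rfl⟩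
  have hz4 : z ^ 4 ≤ N := by
    have h3 : z * z ≤ Nat.sqrt N := by rw [hz]; exact Nat.sqrt_le _
    have h4 : Nat.sqrt N * Nat.sqrt N ≤ N := Nat.sqrt_le _
    calc z ^ 4 = (z * z) * (z * z) := by ring
      _ ≤ Nat.sqrt N * Nat.sqrt N := Nat.mul_le_mul h3 h3
      _ ≤ N := h4
  have hz4' : N < (z + 1) ^ 4 := by
    have h3 : Nat.sqrt N < (z + 1) * (z + 1) := by rw [hz]; exact Nat.lt_succ_sqrt _
    have h4 : N < (Nat.sqrt N + 1) * (Nat.sqrt N + 1) := Nat.lt_succ_sqrt _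
    calc N < (Nat.sqrt N + 1) * (Nat.sqrt N + 1) := h4
      _ ≤ ((z + 1) * (z + 1)) * ((z + 1) * (z + 1)) := Nat.mul_le_mul h3 h3
      _ = (z + 1) ^ 4 := by ring
  have hzl : l ^ 2 / 2 ≤ z := by
    have h3 : l ^ 8 < ((z : ℝ) + 1) ^ 4 := lt_of_le_of_lt hlN (by exact_mod_cast hz4')
    have h4 : l ^ 2 < (z : ℝ) + 1 := by
      by_contra hcon
      push Not at hcon
      have h5 : ((z : ℝ) + 1) ^ 4 ≤ (l ^ 2) ^ 4 := pow_le_pow_left₀ (by positivity) hcon 4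
      have h6 : (l ^ 2) ^ 4 = l ^ 8 := by ring
      linarith
    nlinarith
  have hz3 : (3 : ℝ) ≤ z := by nlinarith
  have hz0 : (0 : ℝ) < z := by linarith
  have hlogz : 1 ≤ Real.log z := by
    rw [Real.le_log_iff_exp_le hz0]
    linarith [Real.exp_one_lt_d9]
  have hH0 : (0 : ℝ) < H := by exact_mod_cast (show 0 < H by omega)
  rw [Real.rpow_one] at e5
  -- the products
  have hWj : ∀ j : ℕ, j ≤ N → W * j ≤ H := by
    intro j hj
    have h3 : (j : ℝ) ≤ l ^ B := le_trans (by exact_mod_cast hj) hNB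
    have h4 : (W : ℝ) * j ≤ l ^ (2 * B) := by
      calc (W : ℝ) * j ≤ l ^ B * l ^ B := by gcongr
        _ = l ^ (2 * B) := by rw [← pow_add, two_mul]
    have h6 : 0 ≤ l ^ (2 * B) := by positivity
    have h5 : (W : ℝ) * j ≤ H := by linarith
    exact_mod_cast h5
  have hbig : (2 * C + 2) * l / (z * Real.log z) ≤ ε' := by
    have h3 : l ^ 2 / 2 ≤ z * Real.log z := by nlinarith
    have h4 : 4 * (C : ℝ) + 4 ≤ ε' * l := by
      rw [div_le_iff₀ hε0] at e4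
      linarith
    rw [div_le_iff₀ (by positivity)]
    have hC0 : (0 : ℝ) ≤ C := Nat.cast_nonneg _
    calc (2 * C + 2) * l ≤ ε' * (l ^ 2 / 2) := by nlinarith
      _ ≤ ε' * (z * Real.log z) := by gcongr
  -- the sign
  obtain ⟨s, hs⟩ : ∃ s : Fin K × Fin K → ℤ, s = fun q => Int.sign (a q.1 * a q.2) := ⟨_, rfl⟩
  obtain ⟨Wq, hWq⟩ : ∃ Wq : Fin K × Fin K → ℕ, Wq = fun q => (a q.1 * a q.2).natAbs * W := ⟨_, rfl⟩
  obtain ⟨Δ, hΔ⟩ : ∃ Δ : Fin K × Fin K → ℤ, Δ = fun q => s q * (a q.1 * b q.2 - a q.2 * b q.1) := ⟨_, rfl⟩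
  have hss : ∀ q, s q * s q = 1 := by
    intro q
    have h1 : a q.1 * a q.2 ≠ 0 := mul_ne_zero (ha _) (ha _)
    rw [hs]
    simp only
    rcases lt_or_gt_of_ne h1 with h | h
    · rw [Int.sign_eq_neg_one_of_neg h]; norm_num
    · rw [Int.sign_eq_one_of_pos h]; norm_num
  have hRes : ∀ (q : Fin K × Fin K) (j : ℕ),
      Δ q + (Wq q : ℤ) * j = s q * Res a b q.1 q.2 ((W * j : ℕ) : ℤ) := by
    intro q j
    have h1 : ((a q.1 * a q.2).natAbs : ℤ) = s q * (a q.1 * a q.2) := by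
      rw [hs]
      simp only
      rw [Int.natCast_natAbs, Int.sign_mul_self_eq_abs]
    rw [hΔ, hWq]
    simp only
    push_cast [h1]
    unfold Res
    ring
  have hResd : ∀ (q : Fin K × Fin K) (j p : ℕ), (p : ℤ) ∣ Res a b q.1 q.2 ((W * j : ℕ) : ℤ) →
      (p : ℤ) ∣ Δ q + (Wq q : ℤ) * j := by
    intro q j p h
    rw [hRes]
    exact h.mul_left _
  set bad := fun q : Fin K × Fin K => (Icc 1 N).filter (fun k : ℕ => ε' < ∑ p ∈ (Icc 1 z).filter (fun p : ℕ =>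
    p.Prime ∧ Real.log N < p ∧ ¬ p ∣ Wq q ∧ (p : ℤ) ∣ Δ q + (Wq q : ℤ) * k), (1 : ℝ) / p) with hbad
  set zer := fun q : Fin K × Fin K => (Icc 1 N).filter (fun k : ℕ => Res a b q.1 q.2 ((W * k : ℕ) : ℤ) = 0) with hzer
  have hbc : ∀ q, ((bad q).card : ℝ) ≤ (N : ℝ) ^ (3 / 4 : ℝ) := by
    intro q
    rw [hbad]
    convert hMOM (Δ q) (Wq q) N z hNN₀ hz4
  have hzc : ∀ q, (zer q).card ≤ 1 := by
    intro q
    rw [card_le_one]
    intro x hx y hy
    rw [hzer] at hx hy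
    simp only [mem_filter] at hx hy
    have h1 := hx.2
    rw [← hy.2] at h1
    unfold Res at h1
    have h2 : a q.1 * a q.2 * ((W * x : ℕ) : ℤ) = a q.1 * a q.2 * ((W * y : ℕ) : ℤ) := by linarith
    have h3 := mul_left_cancel₀ (mul_ne_zero (ha _) (ha _)) h2
    have h4 : W * x = W * y := by exact_mod_cast h3
    exact Nat.eq_of_mul_eq_mul_left hW h4
  have hsub : (Icc 1 N).filter (fun j : ℕ =>
      ε < ∑ p ∈ (PS W H).filter (fun p : ℕ => CF (Fab a b) (W * j) p), (1 : ℝ) / p ∨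
        ∃ i i', Res a b i i' ((W * j : ℕ) : ℤ) = 0) ⊆
      (univ : Finset (Fin K × Fin K)).biUnion (fun q => bad q ∪ zer q) := by
    intro j hj
    rw [mem_filter] at hj
    obtain ⟨hjN, hjε⟩ := hj
    by_contra hcon
    simp only [mem_biUnion, mem_univ, true_and, mem_union, not_exists, not_or] at hcon
    have hnz : ∀ q : Fin K × Fin K, Res a b q.1 q.2 ((W * j : ℕ) : ℤ) ≠ 0 := by
      intro q h0
      apply (hcon q).2
      rw [hzer]
      exact mem_filter.2 ⟨hjN, h0⟩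
    rcases hjε with hjε | ⟨i, i', h0⟩
    swap
    · exact hnz (i, i') h0
    have hgb : ∀ q : Fin K × Fin K, ∑ p ∈ (Icc 1 z).filter (fun p : ℕ =>
        p.Prime ∧ Real.log N < p ∧ ¬ p ∣ Wq q ∧ (p : ℤ) ∣ Δ q + (Wq q : ℤ) * j), (1 : ℝ) / p ≤ ε' := by
      intro q
      by_contra h1
      push Not at h1
      apply (hcon q).1
      rw [hbad]
      exact mem_filter.2 ⟨hjN, h1⟩
    rw [mem_Icc] at hjN
    have hWjH := hWj j hjN.2
    set S0 := (PS W H).filter (fun p : ℕ => CF (Fab a b) (W * j) p) with hS0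
    have hS0p : ∀ p ∈ S0, p.Prime ∧ ¬ p ∣ W ∧ Real.log N < p := by
      intro p hp
      rw [hS0, mem_filter] at hp
      have hp1 := hp.1
      unfold PS at hp1
      rw [mem_filter] at hp1
      refine ⟨hp1.2.1, hp1.2.2, ?_⟩
      by_contra h3
      push Not at h3
      exact hp1.2.2 (hpW p hp1.2.1 h3)
    set T1 := fun q : Fin K × Fin K => (Icc 1 z).filter (fun p : ℕ =>
      p.Prime ∧ Real.log N < p ∧ ¬ p ∣ Wq q ∧ (p : ℤ) ∣ Δ q + (Wq q : ℤ) * j) with hT1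
    set T2 := fun q : Fin K × Fin K => S0.filter (fun p => z < p ∧
      p ∣ (Res a b q.1 q.2 ((W * j : ℕ) : ℤ)).natAbs) with hT2
    have k2 : ∀ q, ∑ p ∈ T2 q, (1 : ℝ) / p ≤ ε' := by
      intro q
      have hne : (Res a b q.1 q.2 ((W * j : ℕ) : ℤ)).natAbs ≠ 0 := Int.natAbs_ne_zero.2 (hnz q)
      refine (big_primes (T2 q) _ hne z ((2 * C + 2) * l) (by linarith) ?_ ?_).trans hbig
      · intro p hp
        rw [hT2] at hp
        simp only [mem_filter] at hp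
        exact ⟨(hS0p p hp.1).1, hp.2.2, by exact_mod_cast hp.2.1.le⟩
      · have h1 := res_le C H (by omega) hab q.1 q.2 (W * j) hWjH
        have h2 : (Res a b q.1 q.2 ((W * j : ℕ) : ℤ)).natAbs ≤ H ^ (2 * C + 2) := by
          have : ((Res a b q.1 q.2 ((W * j : ℕ) : ℤ)).natAbs : ℤ) ≤ ((H ^ (2 * C + 2) : ℕ) : ℤ) := by
            rw [Int.natCast_natAbs]
            push_cast at h1 ⊢
            exact h1
          exact_mod_cast this
        have h3 : Real.log ((Res a b q.1 q.2 ((W * j : ℕ) : ℤ)).natAbs : ℝ) ≤ Real.log ((H : ℝ) ^ (2 * C + 2)) :=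
          Real.log_le_log (by exact_mod_cast Nat.pos_of_ne_zero hne) (by exact_mod_cast h2)
        rw [Real.log_pow, ← hl] at h3
        push_cast at h3
        exact h3
    have hcov : ∀ p ∈ S0, ∃ q ∈ (univ : Finset (Fin K × Fin K)), p ∈ T1 q ∪ T2 q := by
      intro p hp
      obtain ⟨q1, q2, q3⟩ := hS0p p hp
      have hCF : CF (Fab a b) (W * j) p := by
        have hp' := hp
        rw [hS0, mem_filter] at hp'
        exact hp'.2
      obtain ⟨i, i', hd, hnd⟩ := cf_Fab hA q1 hCF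
      refine ⟨(i, i'), mem_univ _, ?_⟩
      rw [mem_union]
      by_cases hpz : p ≤ z
      · left
        rw [hT1]
        simp only [mem_filter, mem_Icc]
        refine ⟨⟨q1.one_lt.le, hpz⟩, q1, q3, ?_, ?_⟩
        · intro h1
          rw [hWq] at h1
          simp only at h1
          rcases (q1.dvd_mul).1 h1 with h2 | h2
          · exact hnd (Int.natCast_dvd.2 h2)
          · exact q2 h2
        · exact hResd (i, i') j p hd
      · right
        rw [hT2]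
        simp only [mem_filter]
        exact ⟨hp, by omega, Int.natCast_dvd.1 hd⟩
    have h6 := sum_biU (univ : Finset (Fin K × Fin K)) (fun q => T1 q ∪ T2 q) S0 hcov
    have h7 : ∑ q : Fin K × Fin K, ∑ p ∈ T1 q ∪ T2 q, (1 : ℝ) / p ≤ ∑ _q : Fin K × Fin K, 2 * ε' := by
      apply sum_le_sum
      intro q _
      have h8 := Pool.Agent.K3h89.SX.sum_un (T1 q) (T2 q)
      have h9 := hgb q
      have h10 := k2 q
      linarith
    rw [sum_const, card_univ, Fintype.card_prod, Fintype.card_fin, nsmul_eq_mul] at h7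
    have h8 : ((K * K : ℕ) : ℝ) * (2 * ε') < ε := by
      rw [hε']
      push_cast
      have e : (K : ℝ) * K * (2 * (ε / (2 * ((K : ℝ) ^ 2 + 1)))) = ε * ((K : ℝ) ^ 2 / ((K : ℝ) ^ 2 + 1)) := by
        field_simp
      rw [e]
      have e' : (K : ℝ) ^ 2 / ((K : ℝ) ^ 2 + 1) < 1 := by
        rw [div_lt_one (by positivity)]
        linarith
      nlinarith
    linarith
  have h3 : (((Icc 1 N).filter (fun j : ℕ =>
      ε < ∑ p ∈ (PS W H).filter (fun p : ℕ => CF (Fab a b) (W * j) p), (1 : ℝ) / p ∨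
        ∃ i i', Res a b i i' ((W * j : ℕ) : ℤ) = 0)).card : ℝ) ≤
      ∑ q : Fin K × Fin K, (((bad q).card : ℝ) + (zer q).card) := by
    have h4 := (card_le_card hsub).trans card_biUnion_le
    have h5 : ∑ q : Fin K × Fin K, (bad q ∪ zer q).card ≤ ∑ q : Fin K × Fin K, ((bad q).card + (zer q).card) :=
      sum_le_sum fun q _ => card_union_le _ _
    exact_mod_cast h4.trans h5
  have hN34 : (1 : ℝ) ≤ (N : ℝ) ^ (3 / 4 : ℝ) := Real.one_le_rpow (by linarith) (by norm_num)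
  have h4 : ∑ q : Fin K × Fin K, (((bad q).card : ℝ) + (zer q).card) ≤
      2 * ((K : ℝ) ^ 2 + 1) * (N : ℝ) ^ (3 / 4 : ℝ) := by
    calc ∑ q : Fin K × Fin K, (((bad q).card : ℝ) + (zer q).card) ≤
          ∑ _q : Fin K × Fin K, (2 * (N : ℝ) ^ (3 / 4 : ℝ)) := by
          apply sum_le_sum
          intro q _
          have h5 := hbc q
          have h6 : ((zer q).card : ℝ) ≤ 1 := by exact_mod_cast hzc q
          linarith
      _ = (K : ℝ) ^ 2 * (2 * (N : ℝ) ^ (3 / 4 : ℝ)) := by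
          rw [sum_const, card_univ, Fintype.card_prod, Fintype.card_fin, nsmul_eq_mul]
          push_cast
          ring
      _ ≤ _ := by nlinarith
  have h5 : 2 * ((K : ℝ) ^ 2 + 1) * (N : ℝ) ^ (3 / 4 : ℝ) ≤ (N : ℝ) ^ (4 / 5 : ℝ) := by
    have h5 : (N : ℝ) ^ (4 / 5 : ℝ) = (N : ℝ) ^ (1 / 20 : ℝ) * (N : ℝ) ^ (3 / 4 : ℝ) := by
      rw [← Real.rpow_add hN0]
      norm_num
    have h6 : 2 * ((K : ℝ) ^ 2 + 1) ≤ (N : ℝ) ^ (1 / 20 : ℝ) := by
      have h7 : ((2 * ((K : ℝ) ^ 2 + 1)) ^ 20) ^ (1 / 20 : ℝ) ≤ (N : ℝ) ^ (1 / 20 : ℝ) :=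
        Real.rpow_le_rpow (by positivity) (e3.trans hN1) (by norm_num)
      rw [← Real.rpow_natCast, ← Real.rpow_mul (by positivity)] at h7
      norm_num at h7
      linarith
    rw [h5]
    gcongr
  exact h3.trans (h4.trans h5)

end Pool.Agent.Zk41.LS
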