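import Pool.Agent.Zk41.LS.D
import Pool.Agent.Zk41.LS.B
import Pool.Agent.K3h89.SZ.STRIP

/-!
Szemerédi's theorem relative to the sets of the integers at which the forms of a system have no small prime factors,
for progressions with a small difference, uniformly in all coefficients.
-/

set_option autoImplicit false

open Finset Filter Topology

namespace Pool.Agent.Zk41.LS

open Pool.Agent.TH423.SH (PS)
open Pool.Agent.Y677.RSZ (rt V)
open Pool.Agent.K3h89.SZ (SysP CF lar_cnt lar_union strip stripP)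
open Pool.Agent.Y677.RSZ (ev_log)

variable {K : ℕ} {a b : Fin K → ℤ}

open Classical in
/-- the large common prime factors -/
theorem larL (K C B : ℕ) (η : ℝ) (hη : 0 < η) : ∃ H₀ : ℕ, ∀ H : ℕ, H₀ ≤ H → ∀ a b : Fin K → ℤ,
    (∀ i, |a i| ≤ (H : ℤ) ^ C ∧ |b i| ≤ (H : ℤ) ^ C) →
    ∑ p ∈ (Icc 1 H).filter (fun p : ℕ => p.Prime ∧ Real.exp (√(Real.log H)) ≤ p ∧
      ∃ h : ℕ, 1 ≤ h ∧ (h : ℝ) ≤ Real.log H ^ B ∧ ∃ i j, Res a b i j h ≠ 0 ∧ (p : ℤ) ∣ Res a b i j h),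
      (1 : ℝ) / p ≤ η := by
  have hcast : Tendsto (fun H : ℕ => (H : ℝ)) atTop atTop := tendsto_natCast_atTop_atTop
  have hlog : Tendsto (fun H : ℕ => Real.log (H : ℝ)) atTop atTop :=
    Real.tendsto_log_atTop.comp hcast
  have hsq : Tendsto (fun H : ℕ => √(Real.log (H : ℝ))) atTop atTop :=
    Real.tendsto_sqrt_atTop.comp hlog
  have e1 : ∀ᶠ H : ℕ in atTop, 2 * Real.log H ^ B < H := by
    have h1 : ∀ᶠ x : ℝ in atTop, ‖Real.log x ^ B‖ ≤ (1 / 4 : ℝ) * ‖id x‖ :=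
      (Real.isLittleO_pow_log_id_atTop (n := B)).def (by positivity)
    filter_upwards [hcast.eventually h1, hcast.eventually (eventually_gt_atTop 0)] with H h2 h3
    have h3' : (0 : ℝ) < H := h3
    rw [id, Real.norm_of_nonneg h3'.le] at h2
    have h4 : Real.log (H : ℝ) ^ B ≤ 1 / 4 * H := le_trans (Real.le_norm_self _) h2
    linarith
  obtain ⟨κ, hκ⟩ : ∃ κ : ℝ, κ = ((K : ℝ) ^ 2 + 1) * (2 * C + 2) := ⟨_, rfl⟩
  have hκ0 : 0 < κ := by rw [hκ]; positivity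
  have e2 : ∀ᶠ H : ℕ in atTop,
      √(Real.log (H : ℝ)) ^ (2 * B + 1) * Real.exp (-√(Real.log (H : ℝ))) < η / κ := by
    have h1 := (Real.tendsto_pow_mul_exp_neg_atTop_nhds_zero (2 * B + 1)).comp hsq
    exact h1.eventually (gt_mem_nhds (by positivity))
  have e3 : ∀ᶠ H : ℕ in atTop, (4 : ℝ) ≤ Real.log (H : ℝ) := hlog.eventually_ge_atTop 4
  obtain ⟨H₀, hH₀⟩ := eventually_atTop.1 (e1.and (e2.and (e3.and (eventually_ge_atTop 20))))
  refine ⟨H₀, fun H hH a b hab => ?_⟩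
  obtain ⟨f1, f2, f3, f4⟩ := hH₀ H hH
  set L : ℝ := Real.log (H : ℝ) with hL
  have hL0 : 0 ≤ L := by linarith
  set E : ℝ := Real.exp (√L) with hE
  have hu : 0 < √L := Real.sqrt_pos.2 (by linarith)
  have hE0 : 0 < E := Real.exp_pos _
  set I : Finset (ℕ × Fin K × Fin K) := (Icc 1 ⌊L ^ B⌋₊) ×ˢ univ with hI
  set T : ℕ × Fin K × Fin K → Finset ℕ := fun q => (Icc 1 H).filter (fun p : ℕ => p.Prime ∧ E ≤ p ∧
    Res a b q.2.1 q.2.2 (q.1 : ℤ) ≠ 0 ∧ (p : ℤ) ∣ Res a b q.2.1 q.2.2 (q.1 : ℤ)) with hT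
  -- the size of `T q`
  have hcard : ∀ q ∈ I, ((T q).card : ℝ) ≤ (2 * C + 2) * √L := by
    intro q hq
    rw [hI, mem_product, Finset.mem_Icc] at hq
    have hhL : (q.1 : ℝ) ≤ L ^ B := (Nat.le_floor_iff (by positivity)).1 hq.1.2
    have hqH : q.1 ≤ H := by
      have h1 : 0 ≤ L ^ B := by positivity
      have : (q.1 : ℝ) ≤ H := by linarith
      exact_mod_cast this
    by_cases h0 : Res a b q.2.1 q.2.2 (q.1 : ℤ) = 0
    · have : T q = ∅ := by
        rw [hT]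
        simp only
        rw [filter_eq_empty_iff]
        intro p _ hp
        exact hp.2.2.1 h0
      rw [this]
      simp
      positivity
    · have g2 : |((Res a b q.2.1 q.2.2 (q.1 : ℤ) : ℤ) : ℝ)| ≤ (H : ℝ) ^ (2 * C + 2) := by
        have := res_le C H (by omega) hab q.2.1 q.2.2 q.1 hqH
        rw [← Int.cast_abs]
        exact_mod_cast this
      have g3 := lar_cnt h0 hE0.le g2 (T q) fun p hp => by
        have := (Finset.mem_filter.1 hp).2
        exact ⟨this.1, this.2.1, this.2.2.2⟩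
      have g4 := Real.log_le_log (pow_pos hE0 _) g3
      rw [Real.log_pow, Real.log_pow, hE, Real.log_exp, ← hL] at g4
      have g5 : L = √L * √L := (Real.mul_self_sqrt hL0).symm
      have g6 : ((T q).card : ℝ) * √L ≤ ((2 * C + 2) * √L) * √L := by
        rw [mul_assoc, ← g5]
        exact_mod_cast g4
      exact le_of_mul_le_mul_right g6 hu
  have h1 := sum_biU I T ((Icc 1 H).filter (fun p : ℕ => p.Prime ∧ Real.exp (√(Real.log H)) ≤ p ∧
      ∃ h : ℕ, 1 ≤ h ∧ (h : ℝ) ≤ Real.log H ^ B ∧ ∃ i j, Res a b i j h ≠ 0 ∧ (p : ℤ) ∣ Res a b i j h)) (by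
    intro p hp
    obtain ⟨hp1, hp2, hp3, h, hh1, hh2, i, j, h3, h4⟩ := Finset.mem_filter.1 hp
    refine ⟨(h, i, j), ?_, Finset.mem_filter.2 ⟨hp1, hp2, hp3, h3, h4⟩⟩
    rw [hI, mem_product]
    exact ⟨Finset.mem_Icc.2 ⟨hh1, Nat.le_floor hh2⟩, mem_univ _⟩)
  have hin : ∀ q ∈ I, ∑ p ∈ T q, (1 : ℝ) / p ≤ (2 * C + 2) * √L * Real.exp (-√L) := by
    intro q hq
    have h1 : ∀ p ∈ T q, (1 : ℝ) / p ≤ Real.exp (-√L) := by
      intro p hp
      obtain ⟨-, -, h2, -⟩ := Finset.mem_filter.1 hp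
      rw [Real.exp_neg, ← hE, one_div]
      exact inv_anti₀ hE0 h2
    calc ∑ p ∈ T q, (1 : ℝ) / p ≤ ∑ _p ∈ T q, Real.exp (-√L) := Finset.sum_le_sum h1
      _ = (T q).card * Real.exp (-√L) := by rw [Finset.sum_const, nsmul_eq_mul]
      _ ≤ (2 * C + 2) * √L * Real.exp (-√L) :=
        mul_le_mul_of_nonneg_right (hcard q hq) (Real.exp_pos _).le
  calc _ ≤ ∑ q ∈ I, ∑ p ∈ T q, (1 : ℝ) / p := h1
    _ ≤ ∑ _q ∈ I, (2 * C + 2) * √L * Real.exp (-√L) := Finset.sum_le_sum hin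
    _ = ((⌊L ^ B⌋₊ : ℝ) * (K : ℝ) ^ 2) * ((2 * C + 2) * √L * Real.exp (-√L)) := by
        rw [Finset.sum_const, nsmul_eq_mul, hI, card_product, Nat.card_Icc, Nat.add_sub_cancel, card_univ,
          Fintype.card_prod, Fintype.card_fin]
        push_cast
        ring
    _ ≤ (L ^ B * ((K : ℝ) ^ 2 + 1)) * ((2 * C + 2) * √L * Real.exp (-√L)) := by
        apply mul_le_mul_of_nonneg_right _ (by positivity)
        apply mul_le_mul (Nat.floor_le (by positivity)) (by linarith) (by positivity) (by positivity)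
    _ = κ * (√L ^ (2 * B + 1) * Real.exp (-√L)) := by
        have h1 : √L ^ (2 * B + 1) = L ^ B * √L := by
          rw [pow_succ, pow_mul, Real.sq_sqrt hL0]
        rw [h1, hκ]
        ring
    _ ≤ η := by
        rw [lt_div_iff₀ hκ0] at f2
        linarith

end Pool.Agent.Zk41.LS
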